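import Mathlib
import Pool.Agent.Squeeze.Smooth

set_option autoImplicit false

open Complex Set Filter MeasureTheory Topology

namespace Pool.Agent.Helper41.FB

/-- Integral over the affine path `t ↦ a + b t`, `-1 ≤ t ≤ 1`. -/
noncomputable def E (a b : ℂ) (g : ℂ → ℂ) : ℂ := ∫ t in (-1 : ℝ)..1, g (a + b * t)

/-- Integral over the boundary of the square `[-1,1]²`. -/
noncomputable def S (g : ℂ → ℂ) : ℂ :=
  E (-I) 1 g - E I 1 g + I * E 1 I g - I * E (-1) I g

/-- The path avoids the origin. -/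
def NZ (a b : ℂ) : Prop := ∀ t : ℝ, a + b * t ≠ 0

lemma nz1 : NZ (-I) 1 := by
  intro t h
  have := congrArg Complex.im h
  simp at this

lemma nz2 : NZ I 1 := by
  intro t h
  have := congrArg Complex.im h
  simp at this

lemma nz3 : NZ 1 I := by
  intro t h
  have := congrArg Complex.re h
  simp at this

lemma nz4 : NZ (-1) I := by
  intro t h
  have := congrArg Complex.re h
  simp at this

lemma path_cont (a b : ℂ) : Continuous fun t : ℝ => a + b * (t : ℂ) := by fun_prop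

lemma comp_cont {a b : ℂ} (h : NZ a b) {g : ℂ → ℂ} (hg : ContinuousOn g {l | l ≠ 0}) :
    Continuous fun t : ℝ => g (a + b * t) :=
  hg.comp_continuous (path_cont a b) h

lemma comp_cont2 {a b : ℂ} (h : NZ a b) {G : ℂ → ℂ → ℂ}
    (hG : ContinuousOn (fun p : ℂ × ℂ => G p.1 p.2) {p | p.2 ≠ 0}) :
    Continuous fun p : ℂ × ℝ => G p.1 (a + b * p.2) := by
  have h1 : Continuous fun p : ℂ × ℝ => ((p.1, a + b * (p.2 : ℂ)) : ℂ × ℂ) := by fun_prop
  exact hG.comp_continuous h1 (fun p => h p.2)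

lemma E_int {a b : ℂ} (h : NZ a b) {g : ℂ → ℂ} (hg : ContinuousOn g {l | l ≠ 0}) :
    IntervalIntegrable (fun t : ℝ => g (a + b * t)) volume (-1) 1 :=
  (comp_cont h hg).intervalIntegrable _ _

lemma E_add {a b : ℂ} (h : NZ a b) {g g' : ℂ → ℂ} (hg : ContinuousOn g {l | l ≠ 0})
    (hg' : ContinuousOn g' {l | l ≠ 0}) : E a b (fun l => g l + g' l) = E a b g + E a b g' :=
  intervalIntegral.integral_add (E_int h hg) (E_int h hg')

lemma E_smul (a b c : ℂ) (g : ℂ → ℂ) : E a b (fun l => c * g l) = c * E a b g :=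
  intervalIntegral.integral_const_mul _ _

lemma E_congr {a b : ℂ} (h : NZ a b) {g g' : ℂ → ℂ} (hgg : ∀ l ≠ 0, g l = g' l) :
    E a b g = E a b g' := by
  unfold E
  congr 1
  ext t
  exact hgg _ (h t)

lemma S_add {g g' : ℂ → ℂ} (hg : ContinuousOn g {l | l ≠ 0})
    (hg' : ContinuousOn g' {l | l ≠ 0}) : S (fun l => g l + g' l) = S g + S g' := by
  unfold S
  rw [E_add nz1 hg hg', E_add nz2 hg hg', E_add nz3 hg hg', E_add nz4 hg hg']
  ring

lemma S_smul (c : ℂ) (g : ℂ → ℂ) : S (fun l => c * g l) = c * S g := by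
  unfold S
  rw [E_smul, E_smul, E_smul, E_smul]
  ring

lemma S_congr {g g' : ℂ → ℂ} (hgg : ∀ l ≠ 0, g l = g' l) : S g = S g' := by
  unfold S
  rw [E_congr nz1 hgg, E_congr nz2 hgg, E_congr nz3 hgg, E_congr nz4 hgg]

lemma E_hasDeriv {a b : ℂ} (h : NZ a b) {G G' : ℂ → ℂ → ℂ}
    (hG : ∀ s l, l ≠ 0 → HasDerivAt (fun s => G s l) (G' s l) s)
    (hc : ContinuousOn (fun p : ℂ × ℂ => G p.1 p.2) {p | p.2 ≠ 0})
    (hc' : ContinuousOn (fun p : ℂ × ℂ => G' p.1 p.2) {p | p.2 ≠ 0}) (s0 : ℂ) :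
    HasDerivAt (fun s => E a b (G s)) (E a b (G' s0)) s0 := by
  have k1 := comp_cont2 h hc
  have k2 := comp_cont2 h hc'
  have hK : IsCompact ((Metric.closedBall s0 1) ×ˢ (Icc (-1 : ℝ) 1)) :=
    (isCompact_closedBall s0 1).prod isCompact_Icc
  obtain ⟨C, hC⟩ := hK.exists_bound_of_continuousOn (k2.continuousOn)
  refine (intervalIntegral.hasDerivAt_integral_of_dominated_loc_of_deriv_le
    (F := fun s t => G s (a + b * t)) (F' := fun s t => G' s (a + b * t)) (bound := fun _ => C)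
    (Metric.closedBall_mem_nhds s0 one_pos) ?_ ?_ ?_ ?_ ?_ ?_).2
  · exact Eventually.of_forall fun s => by
      have : Continuous fun t : ℝ => G s (a + b * t) := by
        have h2 : Continuous fun t : ℝ => ((s, t) : ℂ × ℝ) := by fun_prop
        exact k1.comp h2
      exact this.aestronglyMeasurable
  · have : Continuous fun t : ℝ => G s0 (a + b * t) := by
      have h2 : Continuous fun t : ℝ => ((s0, t) : ℂ × ℝ) := by fun_prop
      exact k1.comp h2
    exact this.intervalIntegrable _ _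
  · have : Continuous fun t : ℝ => G' s0 (a + b * t) := by
      have h2 : Continuous fun t : ℝ => ((s0, t) : ℂ × ℝ) := by fun_prop
      exact k2.comp h2
    exact this.aestronglyMeasurable
  · refine Eventually.of_forall fun t ht s hs => hC (s, t) ⟨hs, ?_⟩
    rw [uIoc_of_le (by norm_num)] at ht
    exact ⟨ht.1.le, ht.2⟩
  · exact intervalIntegrable_const
  · exact Eventually.of_forall fun t _ s _ => hG s _ (h t)

lemma S_hasDeriv {G G' : ℂ → ℂ → ℂ}
    (hG : ∀ s l, l ≠ 0 → HasDerivAt (fun s => G s l) (G' s l) s)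
    (hc : ContinuousOn (fun p : ℂ × ℂ => G p.1 p.2) {p | p.2 ≠ 0})
    (hc' : ContinuousOn (fun p : ℂ × ℂ => G' p.1 p.2) {p | p.2 ≠ 0}) (s0 : ℂ) :
    HasDerivAt (fun s => S (G s)) (S (G' s0)) s0 := by
  unfold S
  exact (((E_hasDeriv nz1 hG hc hc' s0).sub (E_hasDeriv nz2 hG hc hc' s0)).add
    ((E_hasDeriv nz3 hG hc hc' s0).const_mul I)).sub ((E_hasDeriv nz4 hG hc hc' s0).const_mul I)

lemma E_prim {a b : ℂ} (h : NZ a b) {g g' : ℂ → ℂ} (hg : ∀ l ≠ 0, HasDerivAt g (g' l) l)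
    (hc : ContinuousOn g' {l | l ≠ 0}) : b * E a b g' = g (a + b) - g (a - b) := by
  unfold E
  rw [← intervalIntegral.integral_const_mul]
  have h1 : ∀ t ∈ uIcc (-1 : ℝ) 1, HasDerivAt (fun t : ℝ => g (a + b * t))
      (b * g' (a + b * t)) t := by
    intro t _
    have e1 : HasDerivAt (fun t : ℝ => a + b * (t : ℂ)) b t := by
      have := (Complex.ofRealCLM.hasDerivAt (x := t)).const_mul b
      simpa using this.const_add a
    have e2 := (hg _ (h t)).comp_of_eq t e1 rfl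
    simpa [Function.comp_def, mul_comm] using e2
  rw [intervalIntegral.integral_eq_sub_of_hasDerivAt h1]
  · simp [sub_eq_add_neg]
  · exact ((comp_cont h hc).const_mul b |>.intervalIntegrable _ _)

lemma S_prim {g g' : ℂ → ℂ} (hg : ∀ l ≠ 0, HasDerivAt g (g' l) l)
    (hc : ContinuousOn g' {l | l ≠ 0}) : S g' = 0 := by
  have e1 := E_prim nz1 hg hc
  have e2 := E_prim nz2 hg hc
  have e3 := E_prim nz3 hg hc
  have e4 := E_prim nz4 hg hc
  unfold S
  rw [one_mul] at e1 e2
  rw [e1, e2, e3, e4]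
  ring_nf

lemma S_entire {g : ℂ → ℂ} (hg : Differentiable ℂ g) : S g = 0 := by
  have h := Complex.integral_boundary_rect_eq_zero_of_differentiableOn g (-1 - I) (1 + I)
    hg.differentiableOn
  simp only [sub_re, neg_re, one_re, I_re, sub_zero, add_re, add_zero, sub_im, neg_im, one_im,
    neg_zero, I_im, zero_sub, add_im, zero_add, smul_eq_mul, ofReal_neg, ofReal_one] at h
  unfold S E
  have e1 : ∀ x : ℝ, (x : ℂ) + -1 * I = -I + 1 * x := by intro x; ring
  have e2 : ∀ x : ℝ, (x : ℂ) + 1 * I = I + 1 * x := by intro x; ring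
  have e3 : ∀ x : ℝ, (1 : ℂ) + x * I = 1 + I * x := by intro x; ring
  have e4 : ∀ x : ℝ, (-1 : ℂ) + x * I = -1 + I * x := by intro x; ring
  simp only [e1, e2, e3, e4] at h
  exact h

lemma cont_inv : ContinuousOn (fun l : ℂ => l⁻¹) {l | l ≠ 0} :=
  continuousOn_inv₀.mono fun _ h => h

lemma S_inv : S (fun l => l⁻¹) = 2 * Real.pi * I := by
  have key : (∫ t in (-1 : ℝ)..1, (1 : ℂ) / (1 + (t : ℂ) ^ 2)) = (Real.pi : ℂ) / 2 := by
    have h1 : (∫ t in (-1 : ℝ)..1, (1 : ℂ) / (1 + (t : ℂ) ^ 2)) =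
        ((∫ t in (-1 : ℝ)..1, 1 / (1 + t ^ 2) : ℝ) : ℂ) := by
      rw [← intervalIntegral.integral_ofReal]
      congr 1
      ext t
      push_cast
      ring
    rw [h1, integral_one_div_one_add_sq]
    rw [Real.arctan_neg, Real.arctan_one]
    push_cast
    ring
  have n1 : ∀ t : ℝ, (1 : ℂ) + (t : ℂ) ^ 2 ≠ 0 := by
    intro t
    have : (1 : ℂ) + (t : ℂ) ^ 2 = ((1 + t ^ 2 : ℝ) : ℂ) := by push_cast; ring
    rw [this]
    exact_mod_cast (by positivity : (1 : ℝ) + t ^ 2 ≠ 0)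
  have a1 : E (-I) 1 (fun l => l⁻¹) - E I 1 (fun l => l⁻¹) = 2 * I * (Real.pi / 2) := by
    rw [← key]
    unfold E
    rw [← intervalIntegral.integral_sub (E_int nz1 cont_inv) (E_int nz2 cont_inv),
      ← intervalIntegral.integral_const_mul]
    congr 1
    ext t
    have h1 := nz1 t
    have h2 := nz2 t
    have h3 := n1 t
    have h4 : (-I + 1 * (t : ℂ)) * (I + 1 * t) = 1 + (t : ℂ) ^ 2 := by
      linear_combination (-1 : ℂ) * I_sq
    rw [inv_eq_one_div, inv_eq_one_div, div_sub_div _ _ h1 h2, h4]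
    field_simp
    ring
  have a2 : E 1 I (fun l => l⁻¹) - E (-1) I (fun l => l⁻¹) = 2 * (Real.pi / 2) := by
    rw [← key]
    unfold E
    rw [← intervalIntegral.integral_sub (E_int nz3 cont_inv) (E_int nz4 cont_inv),
      ← intervalIntegral.integral_const_mul]
    congr 1
    ext t
    have h1 := nz3 t
    have h2 := nz4 t
    have h3 := n1 t
    have h4 : (1 + I * (t : ℂ)) * (-1 + I * t) = -(1 + (t : ℂ) ^ 2) := by
      linear_combination (t : ℂ) ^ 2 * I_sq
    rw [inv_eq_one_div, inv_eq_one_div, div_sub_div _ _ h1 h2, h4]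
    field_simp
    ring
  unfold S
  have : E (-I) 1 (fun l => l⁻¹) - E I 1 (fun l => l⁻¹) + I * E 1 I (fun l => l⁻¹) -
      I * E (-1) I (fun l => l⁻¹) = (E (-I) 1 (fun l => l⁻¹) - E I 1 (fun l => l⁻¹)) +
      I * (E 1 I (fun l => l⁻¹) - E (-1) I (fun l => l⁻¹)) := by ring
  rw [this, a1, a2]
  ring

lemma S_div {g : ℂ → ℂ} (hg : Differentiable ℂ g) :
    S (fun l => g l * l⁻¹) = g 0 * (2 * Real.pi * I) := by
  have h1 : Differentiable ℂ (dslope g 0) := by
    have := (Complex.differentiableOn_dslope (s := univ) (c := (0 : ℂ)) (f := g)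
      univ_mem).2 hg.differentiableOn
    exact differentiableOn_univ.1 this
  have h2 : S (fun l => g l * l⁻¹) = S (fun l => dslope g 0 l + g 0 * l⁻¹) := by
    apply S_congr
    intro l hl
    rw [dslope_of_ne _ hl, slope_def_field]
    field_simp
    ring
  rw [h2, S_add h1.continuous.continuousOn (cont_inv.const_mul _ |>.congr fun _ _ => rfl),
    S_entire h1, zero_add, S_smul, S_inv]

end Pool.Agent.Helper41.FB
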