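import Pool.Agent.Helper41.FB.RigA

set_option autoImplicit false

open Complex Set Filter MeasureTheory Topology

namespace Pool.Agent.Helper41.FB

/-- partial derivatives -/
noncomputable def Dx (P : ℂ × ℂ → ℂ) (p : ℂ × ℂ) : ℂ := fderiv ℂ P p (1, 0)

/-- partial derivatives -/
noncomputable def Dy (P : ℂ × ℂ → ℂ) (p : ℂ × ℂ) : ℂ := fderiv ℂ P p (0, 1)

lemma Dx_diff {P : ℂ × ℂ → ℂ} (hP : Differentiable ℂ P) : Differentiable ℂ (Dx P) := by
  have h := Pool.Agent.Squeeze.differentiableOn_fderiv_apply (U := univ) (f := P)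
    hP.differentiableOn isOpen_univ ((1 : ℂ), (0 : ℂ))
  exact differentiableOn_univ.1 h

lemma Dy_diff {P : ℂ × ℂ → ℂ} (hP : Differentiable ℂ P) : Differentiable ℂ (Dy P) := by
  have h := Pool.Agent.Squeeze.differentiableOn_fderiv_apply (U := univ) (f := P)
    hP.differentiableOn isOpen_univ ((0 : ℂ), (1 : ℂ))
  exact differentiableOn_univ.1 h

/-- chain rule along a holomorphic curve. -/
lemma chain {P : ℂ × ℂ → ℂ} (hP : Differentiable ℂ P) {u v : ℂ → ℂ} {u' v' s : ℂ}
    (hu : HasDerivAt u u' s) (hv : HasDerivAt v v' s) :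
    HasDerivAt (fun s => P (u s, v s)) (u' * Dx P (u s, v s) + v' * Dy P (u s, v s)) s := by
  have h1 : HasDerivAt (fun s => (u s, v s)) (u', v') s := hu.prodMk hv
  have h2 := (hP (u s, v s)).hasFDerivAt.comp_hasDerivAt s h1
  have h3 : fderiv ℂ P (u s, v s) (u', v') = u' * Dx P (u s, v s) + v' * Dy P (u s, v s) := by
    have : ((u', v') : ℂ × ℂ) = u' • ((1 : ℂ), (0 : ℂ)) + v' • ((0 : ℂ), (1 : ℂ)) := by
      ext <;> simp
    rw [this, map_add, map_smul, map_smul]
    rfl
  rw [h3] at h2
  exact h2

/-- The basic integrals. -/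
noncomputable def A (P : ℂ × ℂ → ℂ) (i : ℤ) (s x y : ℂ) : ℂ :=
  S (fun l => P (x + s * l⁻¹, y + l) * l ^ i)

lemma zcont (i : ℤ) : ContinuousOn (fun l : ℂ => l ^ i) {l | l ≠ 0} :=
  continuousOn_zpow₀ i

lemma contP {P : ℂ × ℂ → ℂ} (hP : Continuous P) (i : ℤ) (s x y : ℂ) :
    ContinuousOn (fun l : ℂ => P (x + s * l⁻¹, y + l) * l ^ i) {l | l ≠ 0} := by
  apply ContinuousOn.mul _ (zcont i)
  apply hP.comp_continuousOn
  apply ContinuousOn.prodMk
  · exact continuousOn_const.add (continuousOn_const.mul cont_inv)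
  · fun_prop

lemma snd_zpow (i : ℤ) : ContinuousOn (fun p : ℂ × ℂ => p.2 ^ i) {p | p.2 ≠ 0} :=
  (zcont i).comp continuous_snd.continuousOn (fun _ h => h)

lemma snd_inv : ContinuousOn (fun p : ℂ × ℂ => p.2⁻¹) {p | p.2 ≠ 0} :=
  cont_inv.comp continuous_snd.continuousOn (fun _ h => h)

lemma A_ds {P : ℂ × ℂ → ℂ} (hP : Differentiable ℂ P) (i : ℤ) (s x y : ℂ) :
    HasDerivAt (fun s => A P i s x y) (A (Dx P) (i - 1) s x y) s := by
  unfold A
  refine S_hasDeriv (G := fun s l => P (x + s * l⁻¹, y + l) * l ^ i)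
    (G' := fun s l => Dx P (x + s * l⁻¹, y + l) * l ^ (i - 1)) ?_ ?_ ?_ s
  · intro s l hl
    have h1 : HasDerivAt (fun s : ℂ => x + s * l⁻¹) l⁻¹ s := by
      simpa using ((hasDerivAt_id s).mul_const l⁻¹).const_add x
    have h2 : HasDerivAt (fun _ : ℂ => y + l) 0 s := hasDerivAt_const _ _
    have h3 := (chain hP h1 h2).mul_const (l ^ i)
    refine h3.congr_deriv ?_
    rw [zpow_sub_one₀ hl]
    ring
  · refine ContinuousOn.mul ?_ (snd_zpow i)
    apply hP.continuous.comp_continuousOn
    apply ContinuousOn.prodMk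
    · exact continuousOn_const.add (continuous_fst.continuousOn.mul snd_inv)
    · fun_prop
  · refine ContinuousOn.mul ?_ (snd_zpow (i - 1))
    apply (Dx_diff hP).continuous.comp_continuousOn
    apply ContinuousOn.prodMk
    · exact continuousOn_const.add (continuous_fst.continuousOn.mul snd_inv)
    · fun_prop

lemma A_dx {P : ℂ × ℂ → ℂ} (hP : Differentiable ℂ P) (i : ℤ) (s x y : ℂ) :
    HasDerivAt (fun x => A P i s x y) (A (Dx P) i s x y) x := by
  unfold A
  refine S_hasDeriv (G := fun x l => P (x + s * l⁻¹, y + l) * l ^ i)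
    (G' := fun x l => Dx P (x + s * l⁻¹, y + l) * l ^ i) ?_ ?_ ?_ x
  · intro x l hl
    have h1 : HasDerivAt (fun x : ℂ => x + s * l⁻¹) 1 x := by
      simpa using (hasDerivAt_id x).add_const (s * l⁻¹)
    have h2 : HasDerivAt (fun _ : ℂ => y + l) 0 x := hasDerivAt_const _ _
    have h3 := (chain hP h1 h2).mul_const (l ^ i)
    refine h3.congr_deriv ?_
    ring
  · refine ContinuousOn.mul ?_ (snd_zpow i)
    apply hP.continuous.comp_continuousOn
    apply ContinuousOn.prodMk
    · exact continuous_fst.continuousOn.add (continuousOn_const.mul snd_inv)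
    · fun_prop
  · refine ContinuousOn.mul ?_ (snd_zpow i)
    apply (Dx_diff hP).continuous.comp_continuousOn
    apply ContinuousOn.prodMk
    · exact continuous_fst.continuousOn.add (continuousOn_const.mul snd_inv)
    · fun_prop

lemma A_dy {P : ℂ × ℂ → ℂ} (hP : Differentiable ℂ P) (i : ℤ) (s x y : ℂ) :
    HasDerivAt (fun y => A P i s x y) (A (Dy P) i s x y) y := by
  unfold A
  refine S_hasDeriv (G := fun y l => P (x + s * l⁻¹, y + l) * l ^ i)
    (G' := fun y l => Dy P (x + s * l⁻¹, y + l) * l ^ i) ?_ ?_ ?_ y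
  · intro y l hl
    have h1 : HasDerivAt (fun _ : ℂ => x + s * l⁻¹) 0 y := hasDerivAt_const _ _
    have h2 : HasDerivAt (fun y : ℂ => y + l) 1 y := by
      simpa using (hasDerivAt_id y).add_const l
    have h3 := (chain hP h1 h2).mul_const (l ^ i)
    refine h3.congr_deriv ?_
    ring
  · refine ContinuousOn.mul ?_ (snd_zpow i)
    apply hP.continuous.comp_continuousOn
    apply ContinuousOn.prodMk
    · exact continuousOn_const.add (continuousOn_const.mul snd_inv)
    · fun_prop
  · refine ContinuousOn.mul ?_ (snd_zpow i)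
    apply (Dy_diff hP).continuous.comp_continuousOn
    apply ContinuousOn.prodMk
    · exact continuousOn_const.add (continuousOn_const.mul snd_inv)
    · fun_prop

/-- Integration by parts. -/
lemma A_ibp {P : ℂ × ℂ → ℂ} (hP : Differentiable ℂ P) (i : ℤ) (s x y : ℂ) :
    ((i : ℂ) + 1) * A P i s x y = s * A (Dx P) (i - 1) s x y - A (Dy P) (i + 1) s x y := by
  have hx := Dx_diff hP
  have hy := Dy_diff hP
  have c0 := contP hP.continuous i s x y
  have c1 := contP hx.continuous (i - 1) s x y
  have c2 := contP hy.continuous (i + 1) s x y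
  have c0' : ContinuousOn (fun l : ℂ => ((i : ℂ) + 1) * (P (x + s * l⁻¹, y + l) * l ^ i))
      {l | l ≠ 0} := continuousOn_const.mul c0
  have c1' : ContinuousOn (fun l : ℂ => (-s) * (Dx P (x + s * l⁻¹, y + l) * l ^ (i - 1)))
      {l | l ≠ 0} := continuousOn_const.mul c1
  have c01 : ContinuousOn (fun l : ℂ => ((i : ℂ) + 1) * (P (x + s * l⁻¹, y + l) * l ^ i) +
      (-s) * (Dx P (x + s * l⁻¹, y + l) * l ^ (i - 1))) {l | l ≠ 0} := c0'.add c1'
  have key : S (fun l => (((i : ℂ) + 1) * (P (x + s * l⁻¹, y + l) * l ^ i) +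
      (-s) * (Dx P (x + s * l⁻¹, y + l) * l ^ (i - 1))) +
      Dy P (x + s * l⁻¹, y + l) * l ^ (i + 1)) = 0 := by
    apply S_prim (g := fun l => P (x + s * l⁻¹, y + l) * l ^ (i + 1))
    · intro l hl
      have h1 : HasDerivAt (fun l : ℂ => x + s * l⁻¹) (s * (-(l ^ 2)⁻¹)) l := by
        exact ((hasDerivAt_inv hl).const_mul s).const_add x
      have h2 : HasDerivAt (fun l : ℂ => y + l) 1 l := by
        simpa using (hasDerivAt_id l).const_add y
      have h3 := (chain hP h1 h2).mul (hasDerivAt_zpow (i + 1) l (Or.inl hl))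
      refine h3.congr_deriv ?_
      have e1 : l ^ (i - 1) = l ^ (i + 1) * (l ^ 2)⁻¹ := by
        rw [show i - 1 = (i + 1) - 2 by ring, zpow_sub₀ hl]
        rfl
      rw [e1, show i + 1 - 1 = i by ring]
      push_cast
      ring
    · exact c01.add c2
  rw [S_add c01 c2, S_add c0' c1', S_smul, S_smul] at key
  unfold A
  linear_combination key

/-- Rigidity: the two families of relations force a function to be constant. -/
theorem rigid {P : ℂ × ℂ → ℂ} (hP : Differentiable ℂ P) {c : ℂ} (hc : c ≠ 0)
    (h0 : ∀ x y, A P 0 c x y = 0) (h1 : ∀ x y, A (Dy P) (-1) c x y = 0) :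
    ∀ p, P p = P 0 := by
  -- the functions `a k (x,y) = A P (-k)`; all `x`-derivatives
  -- iterated x-derivatives of P
  set Q : ℕ → ℂ × ℂ → ℂ := fun k => Dx^[k] P with hQ
  have hQs : ∀ k, Q (k + 1) = Dx (Q k) := fun k => Function.iterate_succ_apply' _ _ _
  have hQd : ∀ k, Differentiable ℂ (Q k) := by
    intro k
    induction k with
    | zero => exact hP
    | succ k ih => rw [hQs]; exact Dx_diff ih
  -- derivatives in x of relations
  have dxzero : ∀ {R : ℂ × ℂ → ℂ} (_ : Differentiable ℂ R) (i : ℤ), (∀ x y, A R i c x y = 0) →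
      ∀ x y, A (Dx R) i c x y = 0 := by
    intro R hR i h x y
    have e1 := A_dx hR i c x y
    have e2 : (fun x => A R i c x y) = fun _ => 0 := by ext x; exact h x y
    rw [e2] at e1
    exact e1.unique (hasDerivAt_const _ _)
  have dyzero : ∀ {R : ℂ × ℂ → ℂ} (_ : Differentiable ℂ R) (i : ℤ), (∀ x y, A R i c x y = 0) →
      ∀ x y, A (Dy R) i c x y = 0 := by
    intro R hR i h x y
    have e1 := A_dy hR i c x y
    have e2 : (fun y => A R i c x y) = fun _ => 0 := by ext y; exact h x y
    rw [e2] at e1
    exact e1.unique (hasDerivAt_const _ _)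
  -- commutation of derivatives at the level of functions
  have comm : ∀ {R : ℂ × ℂ → ℂ} (_ : Differentiable ℂ R), Dy (Dx R) = Dx (Dy R) := by
    intro R hR
    ext p
    have hcd : ContDiff ℂ 2 R := by
      have := Pool.Agent.Squeeze.contDiffOn_of_differentiableOn (U := univ) isOpen_univ 2
        hR.differentiableOn
      exact contDiffOn_univ.1 (by exact_mod_cast this)
    have hsymm := (hcd.contDiffAt (x := p)).isSymmSndFDerivAt (by simp)
    have hd : Differentiable ℂ (fderiv ℂ R) :=
      (hcd.fderiv_right (m := 1) (by norm_num)).differentiable (by norm_num)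
    have e1 : ∀ v w : ℂ × ℂ, fderiv ℂ (fun q => fderiv ℂ R q v) p w =
        fderiv ℂ (fderiv ℂ R) p w v := by
      intro v w
      have := (hd p).hasFDerivAt.clm_apply (hasFDerivAt_const v p)
      rw [this.fderiv]
      simp
    show fderiv ℂ (fun q => fderiv ℂ R q (1, 0)) p (0, 1) =
      fderiv ℂ (fun q => fderiv ℂ R q (0, 1)) p (1, 0)
    rw [e1, e1]
    exact hsymm.eq _ _
  have commk : ∀ k, Dy (Q k) = Dx^[k] (Dy P) := by
    intro k
    induction k with
    | zero => rfl
    | succ k ih => rw [hQs, comm (hQd k), ih, Function.iterate_succ_apply']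
  have hDk : ∀ k, Differentiable ℂ (Dx^[k] (Dy P)) := fun k => by
    rw [← commk]; exact Dy_diff (hQd k)
  have iter0 : ∀ k x y, A (Q k) 0 c x y = 0 := by
    intro k
    induction k with
    | zero => exact h0
    | succ k ih => rw [hQs]; exact dxzero (hQd k) 0 ih
  have iter1 : ∀ k x y, A (Dx^[k] (Dy P)) (-1) c x y = 0 := by
    intro k
    induction k with
    | zero => exact h1
    | succ k ih => rw [Function.iterate_succ_apply']; exact dxzero (hDk k) (-1) ih
  -- main induction: `A (Q (j + k + 1)) (-(k+2)) = 0`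
  have main : ∀ k : ℕ, ∀ j : ℕ, ∀ x y, A (Q (j + k + 1)) (-((k : ℤ) + 2)) c x y = 0 := by
    intro k
    induction k using Nat.strong_induction_on with
    | _ k ih =>
      intro j x y
      rcases k with _ | k
      · have e := A_ibp (hQd j) (-1) c x y
        have e2 := dyzero (hQd j) 0 (iter0 j) x y
        rw [← hQs] at e
        have e3 : ((-1 : ℤ) : ℂ) + 1 = 0 := by push_cast; ring
        rw [e3, zero_mul, show (-1 : ℤ) + 1 = 0 by norm_num, e2, sub_zero] at e
        have e4 : (-1 : ℤ) - 1 = -(((0 : ℕ) : ℤ) + 2) := by norm_num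
        rw [e4] at e
        have e5 := mul_eq_zero.1 e.symm
        exact e5.resolve_left hc
      · have e := A_ibp (hQd (j + k + 1)) (-((k : ℤ) + 2)) c x y
        have f1 := ih k (Nat.lt_succ_self k) j x y
        have f2 : A (Dy (Q (j + k + 1))) (-((k : ℤ) + 2) + 1) c x y = 0 := by
          rcases k with _ | k
          · rw [commk]
            have := iter1 (j + 0 + 1) x y
            simpa using this
          · have g1 : ∀ x y, A (Q (j + k + 1)) (-((k : ℤ) + 2)) c x y = 0 :=
              ih k (by omega) j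
            have g2 : ∀ x y, A (Q (j + (k + 1) + 1)) (-((k : ℤ) + 2)) c x y = 0 := by
              have := dxzero (hQd _) _ g1
              rwa [← hQs] at this
            have g3 := dyzero (hQd _) _ g2 x y
            have g4 : -(((k + 1 : ℕ) : ℤ) + 2) + 1 = -((k : ℤ) + 2) := by push_cast; ring
            rw [g4]
            exact g3
        rw [f1, mul_zero, f2, sub_zero, ← hQs] at e
        have e5 := (mul_eq_zero.1 e.symm).resolve_left hc
        have e6 : -((k : ℤ) + 2) - 1 = -(((k + 1 : ℕ) : ℤ) + 2) := by push_cast; ring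
        rw [e6] at e5
        exact e5
  -- the function of `s`
  have step1 : ∀ x y, A (Q 1) (-1) c x y = 0 ∧ ∀ s, A (Q 1) (-1) s x y = 0 := by
    intro x y
    set m : ℕ → ℂ → ℂ := fun k s => A (Q k) (-(k : ℤ)) s x y with hm
    have hmd : ∀ k s, HasDerivAt (m k) (m (k + 1) s) s := by
      intro k s
      have := A_ds (hQd k) (-(k : ℤ)) s x y
      rw [← hQs, show -(k : ℤ) - 1 = -((k + 1 : ℕ) : ℤ) by push_cast; ring] at this
      exact this
    have hiter : ∀ n, iteratedDeriv n (m 1) = m (n + 1) := by
      intro n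
      induction n with
      | zero => rfl
      | succ n ih =>
        rw [iteratedDeriv_succ, ih]
        ext s
        exact (hmd (n + 1) s).deriv
    have hm1 : Differentiable ℂ (m 1) := fun s => (hmd 1 s).differentiableAt
    have hconst : ∀ s, m 1 s = m 1 c := by
      intro s
      have ht := Complex.taylorSeries_eq_of_entire' (c := c) (z := s) hm1
      rw [← ht, tsum_eq_single 0]
      · simp
      · intro n hn
        rw [hiter]
        have : m (n + 1) c = 0 := by
          obtain ⟨k, rfl⟩ : ∃ k, n = k + 1 := ⟨n - 1, by omega⟩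
          have := main k 1 x y
          rw [show 1 + k + 1 = k + 1 + 1 by ring] at this
          have e : -((k : ℤ) + 2) = -((k + 1 + 1 : ℕ) : ℤ) := by push_cast; ring
          rw [e] at this
          exact this
        rw [this]
        simp
    -- m 0 is affine
    have haff : ∀ s, m 0 s = m 0 0 + s * m 1 c := by
      intro s
      have hd : ∀ s, HasDerivAt (fun s => m 0 s - s * m 1 c) 0 s := by
        intro s
        have := (hmd 0 s).sub ((hasDerivAt_id s).mul_const (m 1 c))
        refine this.congr_deriv ?_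
        rw [zero_add, hconst s]
        ring
      have := is_const_of_deriv_eq_zero (f := fun s => m 0 s - s * m 1 c)
        (fun s => (hd s).differentiableAt) (fun s => (hd s).deriv) s 0
      simp only [zero_mul, sub_zero] at this
      linear_combination this
    have hz : m 0 0 = 0 := by
      simp only [hm]
      unfold A
      have : S (fun l => Q 0 (x + 0 * l⁻¹, y + l) * l ^ (-((0 : ℕ) : ℤ))) =
          S (fun l => P (x, y + l)) := by
        apply S_congr
        intro l _
        simp [hQ]
      rw [this]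
      apply S_entire
      exact hP.comp (by fun_prop : Differentiable ℂ fun l : ℂ => (x, y + l))
    have hc0 : m 0 c = 0 := by
      simp only [hm]
      simpa using iter0 0 x y
    have h5 := haff c
    rw [hc0, hz, zero_add] at h5
    have h6 : m 1 c = 0 := (mul_eq_zero.1 h5.symm).resolve_left hc
    refine ⟨?_, fun s => ?_⟩
    · simpa [hm] using h6
    · have := hconst s
      rw [h6] at this
      simpa [hm] using this
  have hDx : ∀ x y, Dx P (x, y) = 0 := by
    intro x y
    have h := (step1 x y).2 0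
    unfold A at h
    have e : S (fun l => Q 1 (x + 0 * l⁻¹, y + l) * l ^ (-1 : ℤ)) =
        S (fun l => Dx P (x, y + l) * l⁻¹) := by
      apply S_congr
      intro l _
      simp [hQ]
    rw [e, S_div (g := fun l => Dx P (x, y + l))
      ((Dx_diff hP).comp (by fun_prop : Differentiable ℂ fun l : ℂ => (x, y + l)))] at h
    rw [add_zero] at h
    exact (mul_eq_zero.1 h).resolve_right Complex.two_pi_I_ne_zero
  have hDxf : Dx P = fun _ => 0 := by ext ⟨x, y⟩; exact hDx x y
  have hxc : ∀ x y, P (x, y) = P (0, y) := by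
    intro x y
    have hd : ∀ s, HasDerivAt (fun s => P (s, y)) 0 s := by
      intro s
      have := chain hP (hasDerivAt_id s) (hasDerivAt_const s y)
      simpa [hDx] using this
    exact is_const_of_deriv_eq_zero (f := fun s => P (s, y))
      (fun s => (hd s).differentiableAt) (fun s => (hd s).deriv) x 0
  have hDyx : ∀ x y, Dy P (x, y) = Dy P (0, y) := by
    intro x y
    have e1 : HasDerivAt (fun s => P (x, s)) (Dy P (x, y)) y := by
      have := chain hP (hasDerivAt_const y x) (hasDerivAt_id y)
      simpa using this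
    have e2 : HasDerivAt (fun s => P (0, s)) (Dy P (0, y)) y := by
      have := chain hP (hasDerivAt_const y (0 : ℂ)) (hasDerivAt_id y)
      simpa using this
    have e3 : (fun s => P (x, s)) = fun s => P (0, s) := by ext s; exact hxc x s
    rw [e3] at e1
    exact e1.unique e2
  have hDy : ∀ x y, Dy P (x, y) = 0 := by
    intro x y
    have h := h1 x y
    unfold A at h
    have e : S (fun l => Dy P (x + c * l⁻¹, y + l) * l ^ (-1 : ℤ)) =
        S (fun l => Dy P (x, y + l) * l⁻¹) := by
      apply S_congr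
      intro l _
      rw [hDyx (x + c * l⁻¹), ← hDyx x]
      simp
    rw [e, S_div (g := fun l => Dy P (x, y + l))
      ((Dy_diff hP).comp (by fun_prop : Differentiable ℂ fun l : ℂ => (x, y + l)))] at h
    rw [add_zero] at h
    exact (mul_eq_zero.1 h).resolve_right Complex.two_pi_I_ne_zero
  rintro ⟨x, y⟩
  rw [hxc x y]
  have hd : ∀ s, HasDerivAt (fun s => P (0, s)) 0 s := by
    intro s
    have := chain hP (hasDerivAt_const s (0 : ℂ)) (hasDerivAt_id s)
    simpa [hDy] using this
  exact is_const_of_deriv_eq_zero (f := fun s => P (0, s))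
    (fun s => (hd s).differentiableAt) (fun s => (hd s).deriv) y 0

end Pool.Agent.Helper41.FB
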