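import Pool.Agent.Helper41.FB.RigA

set_option autoImplicit false

open Complex Set Filter MeasureTheory Topology

namespace Pool.Agent.Helper41.FB

/-- The rectangle with a hole at the origin. -/
lemma S_eq_rect {f : ℂ → ℂ} {a T : ℝ} (ha : 1 ≤ a) (hT : 1 ≤ T)
    (hf : ∀ z : ℂ, |z.re| ≤ a → |z.im| ≤ T → z ≠ 0 → DifferentiableAt ℂ f z) :
    S f = (∫ x in (-a)..a, f (x + (-T : ℝ) * I)) - (∫ x in (-a)..a, f (x + (T : ℝ) * I)) +
      I * (∫ y in (-T)..T, f ((a : ℝ) + y * I)) - I * (∫ y in (-T)..T, f ((-a : ℝ) + y * I)) := by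
  have hor : ∀ (y x0 x1 : ℝ), |x0| ≤ a → |x1| ≤ a → |y| ≤ T → y ≠ 0 →
      IntervalIntegrable (fun x : ℝ => f (x + (y : ℝ) * I)) volume x0 x1 := by
    intro y x0 x1 h0 h1 hy hy0
    apply ContinuousOn.intervalIntegrable
    intro x hx
    have hx' : |x| ≤ a := by
      rw [mem_uIcc] at hx
      rw [abs_le] at *
      rcases hx with ⟨h, h'⟩ | ⟨h, h'⟩ <;> constructor <;> linarith
    have hd := hf (x + (y : ℝ) * I) (by simpa using hx') (by simpa using hy) (by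
      intro h
      have := congrArg Complex.im h
      simp at this
      exact hy0 this)
    have hc : ContinuousAt (fun x : ℝ => (x : ℂ) + (y : ℝ) * I) x := by fun_prop
    exact (ContinuousAt.comp (f := fun x : ℝ => (x : ℂ) + (y : ℝ) * I) (g := f)
      hd.continuousAt hc).continuousWithinAt
  have ver : ∀ (x y0 y1 : ℝ), |y0| ≤ T → |y1| ≤ T → |x| ≤ a → x ≠ 0 →
      IntervalIntegrable (fun y : ℝ => f ((x : ℝ) + y * I)) volume y0 y1 := by
    intro x y0 y1 h0 h1 hx hx0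
    apply ContinuousOn.intervalIntegrable
    intro y hy
    have hy' : |y| ≤ T := by
      rw [mem_uIcc] at hy
      rw [abs_le] at *
      rcases hy with ⟨h, h'⟩ | ⟨h, h'⟩ <;> constructor <;> linarith
    have hd := hf ((x : ℝ) + y * I) (by simpa using hx) (by simpa using hy') (by
      intro h
      have := congrArg Complex.re h
      simp at this
      exact hx0 this)
    have hc : ContinuousAt (fun y : ℝ => ((x : ℝ) : ℂ) + (y : ℂ) * I) y := by fun_prop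
    exact (ContinuousAt.comp (f := fun y : ℝ => ((x : ℝ) : ℂ) + (y : ℂ) * I) (g := f)
      hd.continuousAt hc).continuousWithinAt
  have A1 : |(-1 : ℝ)| ≤ a := by rw [abs_neg, abs_one]; exact ha
  have A2 : |(1 : ℝ)| ≤ a := by rw [abs_one]; exact ha
  have A3 : |a| ≤ a := by rw [abs_of_pos (by linarith)]
  have A4 : |-a| ≤ a := by rw [abs_neg]; exact A3
  have T1 : |(-1 : ℝ)| ≤ T := by rw [abs_neg, abs_one]; exact hT
  have T2 : |(1 : ℝ)| ≤ T := by rw [abs_one]; exact hT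
  have T3 : |T| ≤ T := by rw [abs_of_pos (by linarith)]
  have T4 : |-T| ≤ T := by rw [abs_neg]; exact T3
  have hT0 : T ≠ 0 := by linarith
  have hT0' : -T ≠ 0 := by simpa using hT0
  -- the four rectangles
  have rect : ∀ (x0 x1 y0 y1 : ℝ), (∀ z : ℂ, z.re ∈ uIcc x0 x1 → z.im ∈ uIcc y0 y1 →
      |z.re| ≤ a ∧ |z.im| ≤ T ∧ z ≠ 0) →
      (∫ x in x0..x1, f (x + (y0 : ℝ) * I)) - (∫ x in x0..x1, f (x + (y1 : ℝ) * I)) +
      I * (∫ y in y0..y1, f ((x1 : ℝ) + y * I)) - I * (∫ y in y0..y1, f ((x0 : ℝ) + y * I)) = 0 := by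
    intro x0 x1 y0 y1 h
    have := Complex.integral_boundary_rect_eq_zero_of_differentiableOn f (x0 + y0 * I)
      (x1 + y1 * I) (by
        intro z hz
        rw [Complex.mem_reProdIm] at hz
        simp only [add_re, ofReal_re, mul_re, I_re, mul_zero, ofReal_im, I_im, mul_one, sub_self,
          add_zero, add_im, mul_im, zero_add] at hz
        obtain ⟨h1, h2, h3⟩ := h z hz.1 hz.2
        exact (hf z h1 h2 h3).differentiableWithinAt)
    simpa using this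
  have L := rect (-a) (-1) (-T) T (by
    intro z hz1 hz2
    rw [uIcc_of_le (by linarith)] at hz1 hz2
    refine ⟨abs_le.2 ⟨hz1.1, by linarith [hz1.2]⟩, abs_le.2 hz2, ?_⟩
    rintro rfl
    simp at hz1
    linarith [hz1.2])
  have Rr := rect 1 a (-T) T (by
    intro z hz1 hz2
    rw [uIcc_of_le (by linarith)] at hz1 hz2
    refine ⟨abs_le.2 ⟨by linarith [hz1.1], hz1.2⟩, abs_le.2 hz2, ?_⟩
    rintro rfl
    simp at hz1
    linarith [hz1.1])
  have B := rect (-1) 1 (-T) (-1) (by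
    intro z hz1 hz2
    rw [uIcc_of_le (by linarith)] at hz1 hz2
    refine ⟨abs_le.2 ⟨by linarith [hz1.1], by linarith [hz1.2]⟩,
      abs_le.2 ⟨hz2.1, by linarith [hz2.2]⟩, ?_⟩
    rintro rfl
    simp at hz2
    linarith [hz2.2])
  have Tt := rect (-1) 1 1 T (by
    intro z hz1 hz2
    rw [uIcc_of_le (by linarith)] at hz1 hz2
    refine ⟨abs_le.2 ⟨by linarith [hz1.1], by linarith [hz1.2]⟩,
      abs_le.2 ⟨by linarith [hz2.1], hz2.2⟩, ?_⟩
    rintro rfl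
    simp at hz2
    linarith [hz2.1])
  -- additivity
  have a1 : (∫ x in (-a)..a, f (x + (-T : ℝ) * I)) = (∫ x in (-a)..(-1), f (x + (-T : ℝ) * I)) +
      (∫ x in (-1)..1, f (x + (-T : ℝ) * I)) + (∫ x in (1 : ℝ)..a, f (x + (-T : ℝ) * I)) := by
    rw [intervalIntegral.integral_add_adjacent_intervals (hor (-T) (-a) (-1) A4 A1 T4 hT0')
      (hor (-T) (-1) 1 A1 A2 T4 hT0'), intervalIntegral.integral_add_adjacent_intervals
      (hor (-T) (-a) 1 A4 A2 T4 hT0') (hor (-T) 1 a A2 A3 T4 hT0')]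
  have a2 : (∫ x in (-a)..a, f (x + (T : ℝ) * I)) = (∫ x in (-a)..(-1), f (x + (T : ℝ) * I)) +
      (∫ x in (-1)..1, f (x + (T : ℝ) * I)) + (∫ x in (1 : ℝ)..a, f (x + (T : ℝ) * I)) := by
    rw [intervalIntegral.integral_add_adjacent_intervals (hor T (-a) (-1) A4 A1 T3 hT0)
      (hor T (-1) 1 A1 A2 T3 hT0), intervalIntegral.integral_add_adjacent_intervals
      (hor T (-a) 1 A4 A2 T3 hT0) (hor T 1 a A2 A3 T3 hT0)]
  have a3 : (∫ y in (-T)..T, f ((1 : ℝ) + y * I)) = (∫ y in (-T)..(-1), f ((1 : ℝ) + y * I)) +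
      (∫ y in (-1)..1, f ((1 : ℝ) + y * I)) + (∫ y in (1 : ℝ)..T, f ((1 : ℝ) + y * I)) := by
    rw [intervalIntegral.integral_add_adjacent_intervals (ver 1 (-T) (-1) T4 T1 A2 one_ne_zero)
      (ver 1 (-1) 1 T1 T2 A2 one_ne_zero), intervalIntegral.integral_add_adjacent_intervals
      (ver 1 (-T) 1 T4 T2 A2 one_ne_zero) (ver 1 1 T T2 T3 A2 one_ne_zero)]
  have n1 : (-1 : ℝ) ≠ 0 := by norm_num
  have a4 : (∫ y in (-T)..T, f ((-1 : ℝ) + y * I)) = (∫ y in (-T)..(-1), f ((-1 : ℝ) + y * I)) +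
      (∫ y in (-1)..1, f ((-1 : ℝ) + y * I)) + (∫ y in (1 : ℝ)..T, f ((-1 : ℝ) + y * I)) := by
    rw [intervalIntegral.integral_add_adjacent_intervals (ver (-1) (-T) (-1) T4 T1 A1 n1)
      (ver (-1) (-1) 1 T1 T2 A1 n1), intervalIntegral.integral_add_adjacent_intervals
      (ver (-1) (-T) 1 T4 T2 A1 n1) (ver (-1) 1 T T2 T3 A1 n1)]
  have s1 : E (-I) 1 f = ∫ x in (-1 : ℝ)..1, f (x + (-1 : ℝ) * I) := by
    unfold E
    congr 1; ext x; congr 1; push_cast; ring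
  have s2 : E I 1 f = ∫ x in (-1 : ℝ)..1, f (x + (1 : ℝ) * I) := by
    unfold E
    congr 1; ext x; congr 1; push_cast; ring
  have s3 : E 1 I f = ∫ y in (-1 : ℝ)..1, f ((1 : ℝ) + y * I) := by
    unfold E
    congr 1; ext x; congr 1; push_cast; ring
  have s4 : E (-1) I f = ∫ y in (-1 : ℝ)..1, f ((-1 : ℝ) + y * I) := by
    unfold E
    congr 1; ext x; congr 1; push_cast; ring
  unfold S
  rw [s1, s2, s3, s4, a1, a2]
  rw [a4] at L
  rw [a3] at Rr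
  linear_combination (-1 : ℂ) * L - Rr - B - Tt

/-- The logarithmic derivative of the theta function. -/
noncomputable def Th (q z : ℂ) : ℂ :=
  (z - 1)⁻¹ + (∑' m : ℕ, q ^ (m + 1) / (z - q ^ (m + 1))) -
    ∑' m : ℕ, z * q ^ (m + 1) / (1 - z * q ^ (m + 1))

section theta

variable {q : ℂ} {Q : ℝ}

lemma th_b1 (hQ0 : 0 < Q) (hQ : Q ≤ 1 / 4) (hq : ‖q‖ = Q ^ 2) (m : ℕ) {z : ℂ}
    (hz : Q / 2 < ‖z‖) : ‖q ^ (m + 1) / (z - q ^ (m + 1))‖ ≤ 4 * Q * (Q ^ 2) ^ m := by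
  have h1 : ‖q ^ (m + 1)‖ = (Q ^ 2) ^ (m + 1) := by rw [norm_pow, hq]
  have hQ2 : Q ^ 2 ≤ 1 := by nlinarith
  have h2 : (Q ^ 2) ^ (m + 1) ≤ Q / 4 := by
    calc (Q ^ 2) ^ (m + 1) ≤ (Q ^ 2) ^ 1 := pow_le_pow_of_le_one (by positivity) hQ2 (by omega)
      _ ≤ Q / 4 := by nlinarith
  have h3 : Q / 4 ≤ ‖z - q ^ (m + 1)‖ := by
    have := norm_sub_norm_le z (q ^ (m + 1))
    rw [h1] at this
    linarith
  rw [norm_div, div_le_iff₀ (by linarith), h1]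
  calc (Q ^ 2) ^ (m + 1) = 4 * Q * (Q ^ 2) ^ m * (Q / 4) := by ring
    _ ≤ 4 * Q * (Q ^ 2) ^ m * ‖z - q ^ (m + 1)‖ := by
        apply mul_le_mul_of_nonneg_left h3
        positivity

lemma th_small (hQ0 : 0 < Q) (hQ : Q ≤ 1 / 4) (hq : ‖q‖ = Q ^ 2) (m : ℕ) {z : ℂ}
    (hz : ‖z‖ < 2 / Q) : ‖z * q ^ (m + 1)‖ ≤ 2 * Q * (Q ^ 2) ^ m ∧
      ‖z * q ^ (m + 1)‖ ≤ 1 / 2 := by
  have h1 : ‖q ^ (m + 1)‖ = (Q ^ 2) ^ (m + 1) := by rw [norm_pow, hq]
  have hQ2 : Q ^ 2 ≤ 1 := by nlinarith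
  have h2 : ‖z * q ^ (m + 1)‖ ≤ 2 * Q * (Q ^ 2) ^ m := by
    rw [norm_mul, h1]
    calc ‖z‖ * (Q ^ 2) ^ (m + 1) ≤ 2 / Q * (Q ^ 2) ^ (m + 1) := by gcongr
      _ = 2 * Q * (Q ^ 2) ^ m := by field_simp; ring
  refine ⟨h2, h2.trans ?_⟩
  have : (Q ^ 2) ^ m ≤ 1 := pow_le_one₀ (by positivity) hQ2
  nlinarith

lemma th_b2 (hQ0 : 0 < Q) (hQ : Q ≤ 1 / 4) (hq : ‖q‖ = Q ^ 2) (m : ℕ) {z : ℂ}
    (hz : ‖z‖ < 2 / Q) : ‖z * q ^ (m + 1) / (1 - z * q ^ (m + 1))‖ ≤ 4 * Q * (Q ^ 2) ^ m := by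
  obtain ⟨h1, h2⟩ := th_small hQ0 hQ hq m hz
  have h3 : 1 / 2 ≤ ‖1 - z * q ^ (m + 1)‖ := by
    have := norm_sub_norm_le 1 (z * q ^ (m + 1))
    rw [norm_one] at this
    linarith
  rw [norm_div, div_le_iff₀ (by linarith)]
  calc ‖z * q ^ (m + 1)‖ ≤ 2 * Q * (Q ^ 2) ^ m := h1
    _ = 4 * Q * (Q ^ 2) ^ m * (1 / 2) := by ring
    _ ≤ 4 * Q * (Q ^ 2) ^ m * ‖1 - z * q ^ (m + 1)‖ := by
        apply mul_le_mul_of_nonneg_left h3
        positivity

lemma th_summ (hQ0 : 0 < Q) (hQ : Q ≤ 1 / 4) : Summable fun m : ℕ => 4 * Q * (Q ^ 2) ^ m :=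
  (summable_geometric_of_lt_one (by positivity) (by nlinarith)).mul_left _

lemma th_tsum (hQ0 : 0 < Q) (hQ : Q ≤ 1 / 4) : ∑' m : ℕ, 4 * Q * (Q ^ 2) ^ m ≤ 3 / 2 := by
  rw [tsum_mul_left, tsum_geometric_of_lt_one (by positivity) (by nlinarith)]
  have : (0 : ℝ) < 1 - Q ^ 2 := by nlinarith
  rw [← div_eq_mul_inv, div_le_iff₀ this]
  nlinarith

lemma th_sum1 (hQ0 : 0 < Q) (hQ : Q ≤ 1 / 4) (hq : ‖q‖ = Q ^ 2) {z : ℂ} (hz : Q / 2 < ‖z‖) :
    Summable fun m : ℕ => q ^ (m + 1) / (z - q ^ (m + 1)) :=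
  Summable.of_norm_bounded (th_summ hQ0 hQ) fun m => th_b1 hQ0 hQ hq m hz

lemma th_sum2 (hQ0 : 0 < Q) (hQ : Q ≤ 1 / 4) (hq : ‖q‖ = Q ^ 2) {z : ℂ} (hz : ‖z‖ < 2 / Q) :
    Summable fun m : ℕ => z * q ^ (m + 1) / (1 - z * q ^ (m + 1)) :=
  Summable.of_norm_bounded (th_summ hQ0 hQ) fun m => th_b2 hQ0 hQ hq m hz

/-- Distance of `Th` to its polar part. -/
lemma th_bound (hQ0 : 0 < Q) (hQ : Q ≤ 1 / 4) (hq : ‖q‖ = Q ^ 2) {z : ℂ} (hz : Q / 2 < ‖z‖)
    (hz' : ‖z‖ < 2 / Q) : ‖Th q z - (z - 1)⁻¹‖ ≤ 3 := by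
  have h1 := tsum_of_norm_bounded (th_summ hQ0 hQ).hasSum fun m => th_b1 (z := z) hQ0 hQ hq m hz
  have h2 := tsum_of_norm_bounded (th_summ hQ0 hQ).hasSum fun m => th_b2 (z := z) hQ0 hQ hq m hz'
  have h3 := th_tsum hQ0 hQ
  have : Th q z - (z - 1)⁻¹ = (∑' m : ℕ, q ^ (m + 1) / (z - q ^ (m + 1))) -
      ∑' m : ℕ, z * q ^ (m + 1) / (1 - z * q ^ (m + 1)) := by unfold Th; ring
  rw [this]
  calc _ ≤ _ := norm_sub_le _ _
    _ ≤ 3 := by linarith

lemma th_diff (hQ0 : 0 < Q) (hQ : Q ≤ 1 / 4) (hq : ‖q‖ = Q ^ 2) {z : ℂ} (hz : Q / 2 < ‖z‖)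
    (hz' : ‖z‖ < 2 / Q) (hz1 : z ≠ 1) : DifferentiableAt ℂ (Th q) z := by
  set U : Set ℂ := {z | Q / 2 < ‖z‖} ∩ {z | ‖z‖ < 2 / Q} with hU
  have hUo : IsOpen U :=
    (isOpen_lt continuous_const continuous_norm).inter (isOpen_lt continuous_norm continuous_const)
  have hzU : z ∈ U := ⟨hz, hz'⟩
  have d1 : DifferentiableOn ℂ (fun z => ∑' m : ℕ, q ^ (m + 1) / (z - q ^ (m + 1))) U := by
    apply differentiableOn_tsum_of_summable_norm (th_summ hQ0 hQ) _ hUo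
    · intro m z hz
      exact th_b1 hQ0 hQ hq m hz.1
    · intro m z hz
      apply DifferentiableAt.differentiableWithinAt
      have h1 : ‖q ^ (m + 1)‖ = (Q ^ 2) ^ (m + 1) := by rw [norm_pow, hq]
      have hQ2 : Q ^ 2 ≤ 1 := by nlinarith
      have h2 : (Q ^ 2) ^ (m + 1) ≤ Q / 4 := by
        calc (Q ^ 2) ^ (m + 1) ≤ (Q ^ 2) ^ 1 := pow_le_pow_of_le_one (by positivity) hQ2 (by omega)
          _ ≤ Q / 4 := by nlinarith
      have hne : z - q ^ (m + 1) ≠ 0 := by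
        intro h0
        rw [sub_eq_zero] at h0
        have := hz.1
        simp only [mem_ofPred_eq] at this
        rw [h0, h1] at this
        linarith
      exact (differentiableAt_const _).div (by fun_prop) hne
  have d2 : DifferentiableOn ℂ
      (fun z => ∑' m : ℕ, z * q ^ (m + 1) / (1 - z * q ^ (m + 1))) U := by
    apply differentiableOn_tsum_of_summable_norm (th_summ hQ0 hQ) _ hUo
    · intro m z hz
      exact th_b2 hQ0 hQ hq m hz.2
    · intro m z hz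
      apply DifferentiableAt.differentiableWithinAt
      have hne : 1 - z * q ^ (m + 1) ≠ 0 := by
        intro h0
        have h2 := (th_small hQ0 hQ hq m hz.2).2
        have : z * q ^ (m + 1) = 1 := by linear_combination (-1 : ℂ) * h0
        rw [this, norm_one] at h2
        norm_num at h2
      exact DifferentiableAt.div (by fun_prop) (by fun_prop) hne
  have d0 : DifferentiableAt ℂ (fun z : ℂ => (z - 1)⁻¹) z :=
    DifferentiableAt.inv (by fun_prop) (sub_ne_zero.2 hz1)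
  have e1 := (d1 z hzU).differentiableAt (hUo.mem_nhds hzU)
  have e2 := (d2 z hzU).differentiableAt (hUo.mem_nhds hzU)
  exact (d0.add e1).sub e2

/-- The multiplicative quasi-period. -/
lemma th_shift (hQ0 : 0 < Q) (hQ : Q ≤ 1 / 4) (hq : ‖q‖ = Q ^ 2) {z : ℂ} (hz : ‖z‖ = 1 / Q) :
    Th q (q * z) = Th q z - 1 := by
  have hq0 : q ≠ 0 := by
    rintro rfl
    rw [norm_zero] at hq
    have : 0 < Q ^ 2 := by positivity
    linarith
  have hz1 : 1 < ‖z‖ := by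
    rw [hz, lt_div_iff₀ hQ0]; linarith
  have hqz : ‖q * z‖ = Q := by rw [norm_mul, hq, hz]; field_simp
  have hne : ∀ m : ℕ, z - q ^ m ≠ 0 := by
    intro m h
    rw [sub_eq_zero] at h
    have : ‖z‖ ≤ 1 := by
      rw [h, norm_pow, hq]
      exact pow_le_one₀ (by positivity) (by nlinarith)
    linarith
  have b1 : Q / 2 < ‖z‖ := by linarith
  have b2 : ‖z‖ < 2 / Q := by
    rw [hz]
    exact div_lt_div_of_pos_right (by norm_num) hQ0
  -- first sum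
  have t1 : (∑' m : ℕ, q ^ (m + 1) / (q * z - q ^ (m + 1))) =
      (z - 1)⁻¹ + ∑' m : ℕ, q ^ (m + 1) / (z - q ^ (m + 1)) := by
    have e1 : ∀ m : ℕ, q ^ (m + 1) / (q * z - q ^ (m + 1)) = q ^ m / (z - q ^ m) := by
      intro m
      have := hne m
      rw [show q * z - q ^ (m + 1) = q * (z - q ^ m) by ring, pow_succ]
      field_simp
    rw [tsum_congr e1]
    have hs : Summable fun m : ℕ => q ^ m / (z - q ^ m) :=
      (summable_nat_add_iff 1).1 (th_sum1 hQ0 hQ hq b1)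
    rw [hs.tsum_eq_zero_add]
    simp
  have t2 : (∑' m : ℕ, z * q ^ (m + 1) / (1 - z * q ^ (m + 1))) = z * q / (1 - z * q) +
      ∑' m : ℕ, q * z * q ^ (m + 1) / (1 - q * z * q ^ (m + 1)) := by
    rw [(th_sum2 hQ0 hQ hq b2).tsum_eq_zero_add]
    congr 1
    · simp
    · apply tsum_congr
      intro m
      rw [show z * q ^ (m + 1 + 1) = q * z * q ^ (m + 1) by ring]
  have h1 : 1 - z * q ≠ 0 := by
    intro h
    have : q * z = 1 := by linear_combination (-1 : ℂ) * h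
    rw [this, norm_one] at hqz
    linarith
  have h2 : q * z - 1 ≠ 0 := by
    intro h
    apply h1
    linear_combination (-1 : ℂ) * h
  have h3 : (q * z - 1)⁻¹ = -1 - z * q / (1 - z * q) := by
    rw [show q * z - 1 = -(1 - z * q) by ring, inv_neg, eq_sub_iff_add_eq, div_eq_mul_inv]
    have := mul_inv_cancel₀ h1
    linear_combination (-1 : ℂ) * this
  unfold Th
  rw [t1, t2, h3]
  ring

end theta

end Pool.Agent.Helper41.FB
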