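import Pool.Agent.Helper41.FB.RigC

set_option autoImplicit false

open Complex Set Filter MeasureTheory Topology

namespace Pool.Agent.Helper41.FB

/-- multiplicative coordinate -/
noncomputable def ze (l : ℝ) (z : ℂ) : ℂ := Complex.exp (2 * Real.pi * I * z / l)

/-- The first coordinate of the punctured torus. -/
noncomputable def xi (l : ℝ) (w t z : ℂ) : ℂ := -w * Th (ze l t) (ze l z)

lemma ze_norm (l : ℝ) (z : ℂ) : ‖ze l z‖ = Real.exp (-(2 * Real.pi * z.im / l)) := by
  unfold ze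
  rw [Complex.norm_exp]
  congr 1
  have : 2 * Real.pi * I * z / l = ((2 * Real.pi / l : ℝ) : ℂ) * (I * z) := by
    push_cast; ring
  rw [this, Complex.re_ofReal_mul, Complex.I_mul_re]
  ring

lemma ze_add (l : ℝ) (z z' : ℂ) : ze l (z + z') = ze l z * ze l z' := by
  unfold ze
  rw [← Complex.exp_add]
  congr 1
  ring

lemma ze_self {l : ℝ} (hl : l ≠ 0) : ze l l = 1 := by
  unfold ze
  rw [mul_div_assoc, div_self (by exact_mod_cast hl), mul_one, Complex.exp_two_pi_mul_I]

lemma ze_eq_one {l : ℝ} (hl : 0 < l) {z : ℂ} (h : ze l z = 1) (hz : |z.re| ≤ l / 2) : z = 0 := by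
  unfold ze at h
  rw [Complex.exp_eq_one_iff] at h
  obtain ⟨n, hn⟩ := h
  have hl' : (l : ℂ) ≠ 0 := by exact_mod_cast hl.ne'
  have h2 : z = (n : ℂ) * l := by
    have h3 : (2 * Real.pi * I) ≠ 0 := Complex.two_pi_I_ne_zero
    have h4 : (2 * Real.pi * I) * z = (2 * Real.pi * I) * (n * l) := by
      rw [div_eq_iff hl'] at hn
      rw [hn]; ring
    exact mul_left_cancel₀ h3 h4
  have h5 : z.re = n * l := by rw [h2]; simp
  rw [h5, abs_mul, abs_of_pos hl] at hz
  have h6 : |(n : ℝ)| < 1 := by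
    by_contra hcon
    push Not at hcon
    nlinarith
  have h7 : n = 0 := by
    have : |n| < 1 := by exact_mod_cast h6
    exact Int.abs_lt_one_iff.1 this
  rw [h2, h7]
  simp

lemma exp_quarter {x : ℝ} (hx : Real.pi / 2 ≤ x) : Real.exp (-x) ≤ 1 / 4 := by
  rw [Real.exp_neg, inv_eq_one_div, div_le_div_iff₀ (Real.exp_pos _) (by norm_num)]
  have h1 : (1.5 : ℝ) ≤ x := by
    have := Real.pi_gt_three
    linarith
  have h2 : Real.exp 1.5 ≤ Real.exp x := Real.exp_le_exp.2 h1
  have h3 : (4 : ℝ) ≤ Real.exp 1.5 := by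
    have h4 : Real.exp 1.5 ^ 2 = Real.exp 1 ^ 3 := by
      rw [← Real.exp_nat_mul, ← Real.exp_nat_mul]
      norm_num
    have h5 : (2.7 : ℝ) < Real.exp 1 := by
      have := Real.exp_one_gt_d9
      linarith
    have h6 : (16 : ℝ) ≤ Real.exp 1.5 ^ 2 := by
      rw [h4]
      calc (16 : ℝ) ≤ 2.7 ^ 3 := by norm_num
        _ ≤ Real.exp 1 ^ 3 := by gcongr
    have h7 : 0 < Real.exp 1.5 := Real.exp_pos _
    nlinarith
  linarith

variable {l : ℝ} {w V k : ℂ}

/-- The residue theorem on the punctured torus. -/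
theorem per {P : ℂ × ℂ → ℂ} (hP : Differentiable ℂ P) (hl : 26 ≤ l)
    (h1 : ∀ x y, P (x, y + l) = P (x, y)) (h2 : ∀ x y, P (x + w, y + V) = P (x, y))
    (him : l / 2 ≤ (V + k * w).im) (x0 y0 : ℂ) :
    S (fun z => P (x0 + xi l w (V + k * w) z, y0 + z - k * xi l w (V + k * w) z)) = 0 := by
  set t : ℂ := V + k * w with ht
  set T : ℝ := t.im / 2 with hT
  have hl0 : 0 < l := by linarith
  have hT4 : l / 4 ≤ T := by rw [hT]; linarith
  set Q : ℝ := Real.exp (-(2 * Real.pi * T / l)) with hQdef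
  have hQ0 : 0 < Q := Real.exp_pos _
  have hpi := Real.pi_pos
  have hQ : Q ≤ 1 / 4 := by
    apply exp_quarter
    rw [le_div_iff₀ hl0]
    nlinarith
  have hq : ‖ze l t‖ = Q ^ 2 := by
    rw [ze_norm, hQdef, ← Real.exp_nat_mul]
    congr 1
    rw [hT]
    push_cast
    ring
  -- position of `ze l z` in the rectangle
  have hpos : ∀ z : ℂ, |z.im| ≤ T → Q / 2 < ‖ze l z‖ ∧ ‖ze l z‖ < 2 / Q := by
    intro z hz
    rw [abs_le] at hz
    have e1 : Q ≤ ‖ze l z‖ := by
      rw [ze_norm, hQdef]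
      apply Real.exp_le_exp.2
      apply neg_le_neg
      apply div_le_div_of_nonneg_right _ hl0.le
      nlinarith [hz.2]
    have e2 : ‖ze l z‖ ≤ 1 / Q := by
      rw [ze_norm, hQdef, one_div, ← Real.exp_neg, neg_neg]
      apply Real.exp_le_exp.2
      rw [← neg_div]
      apply div_le_div_of_nonneg_right _ hl0.le
      nlinarith [hz.1]
    constructor
    · linarith
    · exact e2.trans_lt (div_lt_div_of_pos_right (by norm_num) hQ0)
  set f : ℂ → ℂ := fun z => P (x0 + xi l w t z, y0 + z - k * xi l w t z) with hf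
  have hlC : (l : ℂ) ≠ 0 := by exact_mod_cast hl0.ne'
  have hdiff : ∀ z : ℂ, |z.re| ≤ l / 2 → |z.im| ≤ T → z ≠ 0 → DifferentiableAt ℂ f z := by
    intro z hz1 hz2 hz0
    obtain ⟨p1, p2⟩ := hpos z hz2
    have d1 : DifferentiableAt ℂ (ze l) z := by
      unfold ze
      fun_prop
    have hne : ze l z ≠ 1 := fun h => hz0 (ze_eq_one hl0 h hz1)
    have d2 : DifferentiableAt ℂ (fun z => Th (ze l t) (ze l z)) z :=
      (th_diff hQ0 hQ hq p1 p2 hne).comp z d1
    have d3 : DifferentiableAt ℂ (xi l w t) z := by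
      unfold xi
      exact d2.const_mul (-w)
    have d4 : DifferentiableAt ℂ (fun z => (x0 + xi l w t z, y0 + z - k * xi l w t z)) z := by
      fun_prop
    exact (hP _).comp z d4
  have hT1 : 1 ≤ T := by linarith
  have ha1 : 1 ≤ l / 2 := by linarith
  rw [S_eq_rect ha1 hT1 hdiff]
  -- periodicity in the real direction
  have hper : ∀ z, f (z + l) = f z := by
    intro z
    have e1 : xi l w t (z + l) = xi l w t z := by
      unfold xi
      rw [ze_add l z l, ze_self hl0.ne', mul_one]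
    simp only [hf, e1]
    rw [← h1 (x0 + xi l w t z) (y0 + z - k * xi l w t z)]
    congr 2
    ring
  have hver : (∫ y in (-T)..T, f ((l / 2 : ℝ) + y * I)) =
      ∫ y in (-T)..T, f ((-(l / 2) : ℝ) + y * I) := by
    congr 1
    ext y
    rw [← hper ((-(l / 2) : ℝ) + y * I)]
    congr 1
    push_cast
    ring
  -- the shift by `t`
  have hshift : ∀ x : ℝ, f (x + (T : ℝ) * I) = f ((x - t.re : ℝ) + (-T : ℝ) * I) := by
    intro x
    set z : ℂ := ((x - t.re : ℝ) : ℂ) + ((-T : ℝ) : ℂ) * I with hz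
    have e0 : (x : ℂ) + (T : ℝ) * I = z + t := by
      apply Complex.ext
      · simp [hz]
      · simp [hz, hT]
        ring
    have hzn : ‖ze l z‖ = 1 / Q := by
      rw [ze_norm, hQdef, one_div, ← Real.exp_neg, neg_neg]
      congr 1
      simp [hz]
      ring
    have e1 : xi l w t (z + t) = xi l w t z + w := by
      unfold xi
      rw [ze_add l z t, mul_comm (ze l z), th_shift hQ0 hQ hq hzn]
      ring
    rw [e0]
    simp only [hf, e1]
    rw [← h2 (x0 + xi l w t z) (y0 + z - k * xi l w t z)]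
    congr 2
    · ring
    · rw [ht]; ring
  have hhor : (∫ x in (-(l / 2))..(l / 2), f (x + (T : ℝ) * I)) =
      ∫ x in (-(l / 2))..(l / 2), f (x + (-T : ℝ) * I) := by
    set g : ℝ → ℂ := fun x => f (x + (-T : ℝ) * I) with hg
    have hgp : Function.Periodic g l := by
      intro x
      simp only [hg]
      rw [← hper ((x : ℂ) + (-T : ℝ) * I)]
      congr 1
      push_cast
      ring
    have e1 : (∫ x in (-(l / 2))..(l / 2), f (x + (T : ℝ) * I)) =
        ∫ x in (-(l / 2))..(l / 2), g (x - t.re) := by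
      congr 1
      ext x
      exact hshift x
    rw [e1, intervalIntegral.integral_comp_sub_right]
    have e2 := hgp.intervalIntegral_add_eq (-(l / 2) - t.re) (-(l / 2))
    have e3 : -(l / 2) - t.re + l = l / 2 - t.re := by ring
    have e4 : -(l / 2) + l = l / 2 := by ring
    rw [e3, e4] at e2
    exact e2
  rw [hver, hhor]
  ring

/-- Distance of the curve to the hyperbola. -/
lemma xi_close (hl : 26 ≤ l) {t : ℂ} (him : l / 2 ≤ t.im) {z : ℂ} (hz1 : 1 ≤ ‖z‖)
    (hz2 : ‖z‖ ≤ 2) : ‖xi l w t z - (-(w * l / (2 * Real.pi * I))) * z⁻¹‖ ≤ 5 * ‖w‖ := by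
  set T : ℝ := t.im / 2 with hT
  have hl0 : 0 < l := by linarith
  have hT4 : l / 4 ≤ T := by rw [hT]; linarith
  set Q : ℝ := Real.exp (-(2 * Real.pi * T / l)) with hQdef
  have hQ0 : 0 < Q := Real.exp_pos _
  have hpi := Real.pi_pos
  have hpi4 := Real.pi_lt_d2
  have hQ : Q ≤ 1 / 4 := by
    apply exp_quarter
    rw [le_div_iff₀ hl0]
    nlinarith
  have hq : ‖ze l t‖ = Q ^ 2 := by
    rw [ze_norm, hQdef, ← Real.exp_nat_mul]
    congr 1
    rw [hT]
    push_cast
    ring
  set s : ℂ := 2 * Real.pi * I * z / l with hs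
  have hlC : (l : ℂ) ≠ 0 := by exact_mod_cast hl0.ne'
  have hsn : ‖s‖ = 2 * Real.pi * ‖z‖ / l := by
    rw [hs]
    simp [abs_of_pos hpi, abs_of_pos hl0]
  have hs1 : ‖s‖ ≤ 1 / 2 := by
    rw [hsn, div_le_iff₀ hl0]
    nlinarith
  have hz0 : z ≠ 0 := by
    rintro rfl
    rw [norm_zero] at hz1
    linarith
  have hs0 : s ≠ 0 := by
    rw [hs]
    have := Complex.two_pi_I_ne_zero
    positivity
  have hspos : 0 < ‖s‖ := norm_pos_iff.2 hs0
  have hze : ze l z = Complex.exp s := rfl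
  have hexp2 : ‖Complex.exp s - 1 - s‖ ≤ ‖s‖ ^ 2 :=
    Complex.norm_exp_sub_one_sub_id_le (by linarith)
  have hE : ‖s‖ / 2 ≤ ‖Complex.exp s - 1‖ := by
    have : ‖s‖ ≤ ‖Complex.exp s - 1‖ + ‖Complex.exp s - 1 - s‖ := by
      have h := norm_sub_le (Complex.exp s - 1) (Complex.exp s - 1 - s)
      rwa [show Complex.exp s - 1 - (Complex.exp s - 1 - s) = s by ring] at h
    nlinarith
  have hE0 : Complex.exp s - 1 ≠ 0 := by
    rw [← norm_pos_iff]
    linarith
  have hinv : ‖(Complex.exp s - 1)⁻¹ - s⁻¹‖ ≤ 2 := by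
    rw [inv_sub_inv hE0 hs0, norm_div, norm_mul, div_le_iff₀ (by positivity)]
    have h3 : ‖s - (Complex.exp s - 1)‖ ≤ ‖s‖ ^ 2 := by
      rw [← norm_neg]
      have : -(s - (Complex.exp s - 1)) = Complex.exp s - 1 - s := by ring
      rw [this]
      exact hexp2
    nlinarith
  -- norms of `exp s`
  have hn1 : ‖Complex.exp s‖ ≤ 2 := by
    have h := norm_add_le (Complex.exp s - 1 - s) (1 + s)
    rw [show Complex.exp s - 1 - s + (1 + s) = Complex.exp s by ring] at h
    have h4 : ‖1 + s‖ ≤ 1 + ‖s‖ := by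
      have := norm_add_le 1 s
      rwa [norm_one] at this
    nlinarith
  have hn2 : 1 / 4 ≤ ‖Complex.exp s‖ := by
    have h := norm_sub_norm_le 1 (1 - Complex.exp s)
    rw [show (1 : ℂ) - (1 - Complex.exp s) = Complex.exp s by ring, norm_one] at h
    have h5 : ‖1 - Complex.exp s‖ ≤ 3 / 4 := by
      rw [← norm_neg]
      have h6 := norm_add_le (Complex.exp s - 1 - s) s
      rw [show Complex.exp s - 1 - s + s = -(1 - Complex.exp s) by ring] at h6
      nlinarith
    linarith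
  have hb := th_bound (z := ze l z) hQ0 hQ hq (by rw [hze]; linarith) (by
    rw [hze]
    refine lt_of_le_of_lt hn1 ?_
    rw [lt_div_iff₀ hQ0]
    linarith)
  rw [hze] at hb
  have hsinv : s⁻¹ = l / (2 * Real.pi * I) * z⁻¹ := by
    rw [hs]
    have := Complex.two_pi_I_ne_zero
    field_simp
  have e : xi l w t z - (-(w * l / (2 * Real.pi * I))) * z⁻¹ =
      -w * ((Th (ze l t) (Complex.exp s) - (Complex.exp s - 1)⁻¹) +
        ((Complex.exp s - 1)⁻¹ - s⁻¹)) := by
    unfold xi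
    rw [hze, hsinv]
    ring
  rw [e, norm_mul, norm_neg]
  have h7 := norm_add_le (Th (ze l t) (Complex.exp s) - (Complex.exp s - 1)⁻¹)
    ((Complex.exp s - 1)⁻¹ - s⁻¹)
  have h8 : 0 ≤ ‖w‖ := norm_nonneg _
  nlinarith

end Pool.Agent.Helper41.FB
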