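import Pool.Agent.Helper41.FB.RigB
import Pool.Agent.Helper41.FB.RigD

set_option autoImplicit false

open Complex Set Filter MeasureTheory Topology

namespace Pool.Agent.Helper41.FB

lemma xi_diff {l : ℝ} {w t : ℂ} (hl : 26 ≤ l) (him : l / 2 ≤ t.im) {z : ℂ}
    (hz1 : |z.re| ≤ l / 2) (hz2 : |z.im| ≤ t.im / 2) (hz0 : z ≠ 0) :
    DifferentiableAt ℂ (xi l w t) z := by
  set T : ℝ := t.im / 2 with hT
  have hl0 : 0 < l := by linarith
  have hT4 : l / 4 ≤ T := by rw [hT]; linarith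
  set Q : ℝ := Real.exp (-(2 * Real.pi * T / l)) with hQdef
  have hQ0 : 0 < Q := Real.exp_pos _
  have hpi := Real.pi_pos
  have hQ : Q ≤ 1 / 4 := by
    apply exp_quarter
    rw [le_div_iff₀ hl0]
    nlinarith
  have hq : ‖ze l t‖ = Q ^ 2 := by
    rw [ze_norm, hQdef, ← Real.exp_nat_mul]
    congr 1
    rw [hT]
    push_cast
    ring
  have hpos : Q / 2 < ‖ze l z‖ ∧ ‖ze l z‖ < 2 / Q := by
    rw [abs_le] at hz2
    have e1 : Q ≤ ‖ze l z‖ := by
      rw [ze_norm, hQdef]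
      apply Real.exp_le_exp.2
      apply neg_le_neg
      apply div_le_div_of_nonneg_right _ hl0.le
      nlinarith [hz2.2]
    have e2 : ‖ze l z‖ ≤ 1 / Q := by
      rw [ze_norm, hQdef, one_div, ← Real.exp_neg, neg_neg]
      apply Real.exp_le_exp.2
      rw [← neg_div]
      apply div_le_div_of_nonneg_right _ hl0.le
      nlinarith [hz2.1]
    constructor
    · linarith
    · exact e2.trans_lt (div_lt_div_of_pos_right (by norm_num) hQ0)
  obtain ⟨p1, p2⟩ := hpos
  have d1 : DifferentiableAt ℂ (ze l) z := by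
    unfold ze
    fun_prop
  have hne : ze l z ≠ 1 := fun h => hz0 (ze_eq_one hl0 h hz1)
  have d2 : DifferentiableAt ℂ (fun z => Th (ze l t) (ze l z)) z :=
    (th_diff hQ0 hQ hq p1 p2 hne).comp z d1
  unfold xi
  exact d2.const_mul (-w)

/-- The path stays in the annulus. -/
def OnK (a b : ℂ) : Prop := ∀ t ∈ Icc (-1 : ℝ) 1, 1 ≤ ‖a + b * t‖ ∧ ‖a + b * t‖ ≤ 2

lemma onK_aux {z : ℂ} (h1 : 1 ≤ z.re ^ 2 + z.im ^ 2) (h2 : z.re ^ 2 + z.im ^ 2 ≤ 2) :
    1 ≤ ‖z‖ ∧ ‖z‖ ≤ 2 := by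
  have h3 : ‖z‖ ^ 2 = z.re ^ 2 + z.im ^ 2 := by
    rw [Complex.sq_norm, Complex.normSq_apply]; ring
  have h4 := norm_nonneg z
  constructor <;> nlinarith

lemma onK1 : OnK (-I) 1 := by
  intro t ht
  apply onK_aux <;> simp <;> nlinarith [ht.1, ht.2]

lemma onK2 : OnK I 1 := by
  intro t ht
  apply onK_aux <;> simp <;> nlinarith [ht.1, ht.2]

lemma onK3 : OnK 1 I := by
  intro t ht
  apply onK_aux <;> simp <;> nlinarith [ht.1, ht.2]

lemma onK4 : OnK (-1) I := by
  intro t ht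
  apply onK_aux <;> simp <;> nlinarith [ht.1, ht.2]

lemma K_int {a b : ℂ} (h : OnK a b) {g : ℂ → ℂ}
    (hg : ContinuousOn g {z | 1 ≤ ‖z‖ ∧ ‖z‖ ≤ 2}) :
    IntervalIntegrable (fun t : ℝ => g (a + b * t)) volume (-1) 1 := by
  apply ContinuousOn.intervalIntegrable
  rw [uIcc_of_le (by norm_num)]
  exact hg.comp (path_cont a b).continuousOn h

lemma E_sub_le {a b : ℂ} (h : OnK a b) {g g' : ℂ → ℂ}
    (hg : ContinuousOn g {z | 1 ≤ ‖z‖ ∧ ‖z‖ ≤ 2})
    (hg' : ContinuousOn g' {z | 1 ≤ ‖z‖ ∧ ‖z‖ ≤ 2}) {ep : ℝ}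
    (hle : ∀ z, 1 ≤ ‖z‖ → ‖z‖ ≤ 2 → ‖g z - g' z‖ ≤ ep) : ‖E a b g - E a b g'‖ ≤ 2 * ep := by
  unfold E
  rw [← intervalIntegral.integral_sub (K_int h hg) (K_int h hg')]
  have := intervalIntegral.norm_integral_le_of_norm_le_const (a := (-1 : ℝ)) (b := 1) (C := ep)
    (f := fun t : ℝ => g (a + b * t) - g' (a + b * t)) (by
      intro t ht
      rw [uIoc_of_le (by norm_num)] at ht
      have := h t ⟨ht.1.le, ht.2⟩
      exact hle _ this.1 this.2)
  have h2 : |(1 : ℝ) - -1| = 2 := by norm_num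
  rw [h2] at this
  linarith

lemma S_sub_le {g g' : ℂ → ℂ}
    (hg : ContinuousOn g {z | 1 ≤ ‖z‖ ∧ ‖z‖ ≤ 2})
    (hg' : ContinuousOn g' {z | 1 ≤ ‖z‖ ∧ ‖z‖ ≤ 2}) {ep : ℝ}
    (hle : ∀ z, 1 ≤ ‖z‖ → ‖z‖ ≤ 2 → ‖g z - g' z‖ ≤ ep) : ‖S g - S g'‖ ≤ 8 * ep := by
  have e1 := E_sub_le onK1 hg hg' hle
  have e2 := E_sub_le onK2 hg hg' hle
  have e3 := E_sub_le onK3 hg hg' hle
  have e4 := E_sub_le onK4 hg hg' hle
  have : S g - S g' = (E (-I) 1 g - E (-I) 1 g') - (E I 1 g - E I 1 g') +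
      I * (E 1 I g - E 1 I g') - I * (E (-1) I g - E (-1) I g') := by
    unfold S
    ring
  rw [this]
  calc _ ≤ ‖(E (-I) 1 g - E (-I) 1 g') - (E I 1 g - E I 1 g') +
      I * (E 1 I g - E 1 I g')‖ + ‖I * (E (-1) I g - E (-1) I g')‖ := norm_sub_le _ _
    _ ≤ (‖(E (-I) 1 g - E (-I) 1 g') - (E I 1 g - E I 1 g')‖ +
      ‖I * (E 1 I g - E 1 I g')‖) + ‖I * (E (-1) I g - E (-1) I g')‖ := by
        gcongr
        exact norm_add_le _ _
    _ ≤ ((‖E (-I) 1 g - E (-I) 1 g'‖ + ‖E I 1 g - E I 1 g'‖) +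
      ‖I * (E 1 I g - E 1 I g')‖) + ‖I * (E (-1) I g - E (-1) I g')‖ := by
        gcongr
        exact norm_sub_le _ _
    _ ≤ 8 * ep := by
        rw [norm_mul, norm_mul, Complex.norm_I, one_mul, one_mul]
        linarith

/-- The limit of functions periodic under degenerating lattices is constant. -/
theorem lim_const {P : ℕ → ℂ × ℂ → ℂ} {P' : ℂ × ℂ → ℂ} {l : ℕ → ℝ} {w V : ℕ → ℂ} {c : ℂ}
    (hP : ∀ n, Differentiable ℂ (P n)) (hP' : Differentiable ℂ P')
    (h1 : ∀ n x y, P n (x, y + l n) = P n (x, y))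
    (h2 : ∀ n x y, P n (x + w n, y + V n) = P n (x, y))
    (hl : Tendsto l atTop atTop) (hw : Tendsto w atTop (𝓝 0))
    (hV : ∀ᶠ n in atTop, 3 / 4 * l n ≤ (V n).im)
    (hc : Tendsto (fun n => -(w n * l n / (2 * Real.pi * I))) atTop (𝓝 c)) (hc0 : c ≠ 0)
    (hlim : TendstoLocallyUniformly P P' atTop) : ∀ p, P' p = P' 0 := by
  -- the limiting relation
  have key : ∀ x0 y0 k : ℂ, S (fun z => P' (x0 + c * z⁻¹, y0 + z - k * (c * z⁻¹))) = 0 := by
    intro x0 y0 k
    have hK : ∀ z : ℂ, 1 ≤ ‖z‖ → ‖z‖ ≤ 2 → z ≠ 0 ∧ ‖z⁻¹‖ ≤ 1 := by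
      intro z hz _
      have h0 : z ≠ 0 := by
        rintro rfl
        rw [norm_zero] at hz
        linarith
      refine ⟨h0, ?_⟩
      rw [norm_inv]
      exact inv_le_one_of_one_le₀ hz
    by_contra hne
    set D := ‖S (fun z => P' (x0 + c * z⁻¹, y0 + z - k * (c * z⁻¹)))‖ with hD
    have hD0 : 0 < D := norm_pos_iff.2 hne
    set M : ℝ := ‖x0‖ + ‖y0‖ + 3 + (1 + ‖k‖) * (‖c‖ + 1) with hM
    set B : Set (ℂ × ℂ) := Metric.closedBall 0 M with hB
    have hBc : IsCompact B := isCompact_closedBall 0 M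
    have hunif : TendstoUniformlyOn P P' atTop B :=
      (tendstoLocallyUniformly_iff_forall_isCompact.1 hlim) B hBc
    have huc := hBc.uniformContinuousOn_of_continuous hP'.continuous.continuousOn
    set ep : ℝ := D / 32 with hep
    have hep0 : 0 < ep := by positivity
    rw [Metric.uniformContinuousOn_iff] at huc
    obtain ⟨de, hde0, hde⟩ := huc ep hep0
    rw [Metric.tendstoUniformlyOn_iff] at hunif
    have ev1 := hunif ep hep0
    have hk0 : 0 ≤ ‖k‖ := norm_nonneg k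
    set r : ℝ := min 1 (de / 2) / (1 + ‖k‖) with hr
    have hr0 : 0 < r := by positivity
    have ev2 : ∀ᶠ n in atTop, ‖w n‖ < min (r / 10) (1 / (4 * (1 + ‖k‖))) := by
      have := (tendsto_zero_iff_norm_tendsto_zero.1 hw).eventually_lt_const
        (show (0 : ℝ) < min (r / 10) (1 / (4 * (1 + ‖k‖))) by positivity)
      exact this
    have ev3 : ∀ᶠ n in atTop, ‖-(w n * l n / (2 * Real.pi * I)) - c‖ < r / 2 := by
      have := Metric.tendsto_nhds.1 hc (r / 2) (by positivity)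
      filter_upwards [this] with n hn
      rwa [dist_eq_norm] at hn
    have ev4 : ∀ᶠ n in atTop, 26 ≤ l n := hl.eventually_ge_atTop 26
    obtain ⟨n, e1, e2, e3, e4, e5⟩ := (ev1.and (ev2.and (ev3.and (ev4.and hV)))).exists
    have e2a := e2.trans_le (min_le_left _ _)
    have e2b := e2.trans_le (min_le_right _ _)
    set t : ℂ := V n + k * w n with ht
    have him : l n / 2 ≤ t.im := by
      have h3 : |(k * w n).im| ≤ ‖k * w n‖ := Complex.abs_im_le_norm _
      rw [norm_mul] at h3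
      have h4 : ‖k‖ * ‖w n‖ ≤ 1 := by
        have : ‖w n‖ * (4 * (1 + ‖k‖)) < 1 := by
          rw [lt_div_iff₀ (by positivity)] at e2b
          exact e2b
        nlinarith [norm_nonneg (w n)]
      have h5 := (abs_le.1 (h3.trans h4)).1
      rw [ht, Complex.add_im]
      linarith
    have hrel := per (P := P n) (k := k) (hP n) e4 (h1 n) (h2 n) him x0 y0
    -- closeness
    have hxi : ∀ z : ℂ, 1 ≤ ‖z‖ → ‖z‖ ≤ 2 → ‖xi (l n) (w n) t z - c * z⁻¹‖ ≤ r := by
      intro z hz1 hz2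
      have h3 := xi_close (w := w n) e4 him hz1 hz2
      have h4 : ‖(-(w n * l n / (2 * Real.pi * I)) - c) * z⁻¹‖ ≤ r / 2 := by
        rw [norm_mul]
        have := (hK z hz1 hz2).2
        calc _ ≤ r / 2 * 1 := by
              apply mul_le_mul e3.le this (norm_nonneg _) (by positivity)
          _ = r / 2 := mul_one _
      have h5 := norm_add_le (xi (l n) (w n) t z - (-(w n * l n / (2 * Real.pi * I))) * z⁻¹)
        ((-(w n * l n / (2 * Real.pi * I)) - c) * z⁻¹)
      rw [show xi (l n) (w n) t z - (-(w n * l n / (2 * Real.pi * I))) * z⁻¹ +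
        (-(w n * l n / (2 * Real.pi * I)) - c) * z⁻¹ = xi (l n) (w n) t z - c * z⁻¹ by ring] at h5
      linarith
    have hr1 : r * (1 + ‖k‖) ≤ min 1 (de / 2) := by
      rw [hr, div_mul_cancel₀ _ (by positivity)]
    have hr2 : r * (1 + ‖k‖) ≤ 1 := hr1.trans (min_le_left _ _)
    have hr3 : r * (1 + ‖k‖) ≤ de / 2 := hr1.trans (min_le_right _ _)
    have hrr : r ≤ 1 := by nlinarith
    have hcn := norm_nonneg c
    -- points in the ball
    have hin : ∀ u z : ℂ, 1 ≤ ‖z‖ → ‖z‖ ≤ 2 → ‖u‖ ≤ ‖c‖ + 1 →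
        ((x0 + u, y0 + z - k * u) : ℂ × ℂ) ∈ B := by
      intro u z _ hz2 hu
      rw [hB, mem_closedBall_zero_iff, Prod.norm_def]
      have hx := norm_nonneg x0
      have hy := norm_nonneg y0
      apply max_le
      · have := norm_add_le x0 u
        show ‖x0 + u‖ ≤ M
        nlinarith
      · show ‖y0 + z - k * u‖ ≤ M
        have h3 := norm_sub_le (y0 + z) (k * u)
        have h4 := norm_add_le y0 z
        rw [norm_mul] at h3
        have h5 : ‖k‖ * ‖u‖ ≤ ‖k‖ * (‖c‖ + 1) := mul_le_mul_of_nonneg_left hu hk0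
        nlinarith
    have hcz : ∀ z : ℂ, 1 ≤ ‖z‖ → ‖z‖ ≤ 2 → ‖c * z⁻¹‖ ≤ ‖c‖ := by
      intro z hz1 hz2
      rw [norm_mul]
      have := (hK z hz1 hz2).2
      nlinarith
    have hxin : ∀ z : ℂ, 1 ≤ ‖z‖ → ‖z‖ ≤ 2 → ‖xi (l n) (w n) t z‖ ≤ ‖c‖ + 1 := by
      intro z hz1 hz2
      have h3 := norm_add_le (xi (l n) (w n) t z - c * z⁻¹) (c * z⁻¹)
      rw [sub_add_cancel] at h3
      have := hxi z hz1 hz2
      have := hcz z hz1 hz2
      linarith
    have hle : ∀ z : ℂ, 1 ≤ ‖z‖ → ‖z‖ ≤ 2 →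
        ‖P' (x0 + c * z⁻¹, y0 + z - k * (c * z⁻¹)) -
          P n (x0 + xi (l n) (w n) t z, y0 + z - k * xi (l n) (w n) t z)‖ ≤ 2 * ep := by
      intro z hz1 hz2
      have m1 := hin (c * z⁻¹) z hz1 hz2 ((hcz z hz1 hz2).trans (by linarith))
      have m2 := hin (xi (l n) (w n) t z) z hz1 hz2 (hxin z hz1 hz2)
      have d1 := e1 _ m2
      have hdist : dist ((x0 + c * z⁻¹, y0 + z - k * (c * z⁻¹)) : ℂ × ℂ)
          (x0 + xi (l n) (w n) t z, y0 + z - k * xi (l n) (w n) t z) < de := by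
        rw [dist_eq_norm, Prod.norm_def]
        have h3 := hxi z hz1 hz2
        rw [← norm_neg] at h3
        apply max_lt
        · show ‖x0 + c * z⁻¹ - (x0 + xi (l n) (w n) t z)‖ < de
          rw [show x0 + c * z⁻¹ - (x0 + xi (l n) (w n) t z) =
            -(xi (l n) (w n) t z - c * z⁻¹) by ring]
          nlinarith
        · show ‖y0 + z - k * (c * z⁻¹) - (y0 + z - k * xi (l n) (w n) t z)‖ < de
          rw [show y0 + z - k * (c * z⁻¹) - (y0 + z - k * xi (l n) (w n) t z) =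
            -k * -(xi (l n) (w n) t z - c * z⁻¹) by ring, norm_mul, norm_neg k]
          have : ‖k‖ * ‖-(xi (l n) (w n) t z - c * z⁻¹)‖ ≤ ‖k‖ * r :=
            mul_le_mul_of_nonneg_left h3 hk0
          nlinarith
      have d2 := hde _ m1 _ m2 hdist
      rw [dist_eq_norm] at d1 d2
      have h6 := norm_add_le (P' (x0 + c * z⁻¹, y0 + z - k * (c * z⁻¹)) -
        P' (x0 + xi (l n) (w n) t z, y0 + z - k * xi (l n) (w n) t z))
        (P' (x0 + xi (l n) (w n) t z, y0 + z - k * xi (l n) (w n) t z) -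
        P n (x0 + xi (l n) (w n) t z, y0 + z - k * xi (l n) (w n) t z))
      rw [sub_add_sub_cancel] at h6
      linarith
    have c1 : ContinuousOn (fun z => P' (x0 + c * z⁻¹, y0 + z - k * (c * z⁻¹)))
        {z | 1 ≤ ‖z‖ ∧ ‖z‖ ≤ 2} := by
      intro z hz
      apply ContinuousAt.continuousWithinAt
      have h0 := (hK z hz.1 hz.2).1
      have h3 : ContinuousAt (fun z : ℂ => z⁻¹) z := continuousAt_inv₀ h0
      have h4 : ContinuousAt (fun z : ℂ => (x0 + c * z⁻¹, y0 + z - k * (c * z⁻¹))) z := by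
        fun_prop
      exact ContinuousAt.comp (f := fun z : ℂ => (x0 + c * z⁻¹, y0 + z - k * (c * z⁻¹)))
        hP'.continuous.continuousAt h4
    have c2 : ContinuousOn
        (fun z => P n (x0 + xi (l n) (w n) t z, y0 + z - k * xi (l n) (w n) t z))
        {z | 1 ≤ ‖z‖ ∧ ‖z‖ ≤ 2} := by
      intro z hz
      apply ContinuousAt.continuousWithinAt
      have h0 := (hK z hz.1 hz.2).1
      have h3 : ContinuousAt (xi (l n) (w n) t) z := by
        refine (xi_diff e4 him ?_ ?_ h0).continuousAt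
        · have := (Complex.abs_re_le_norm z).trans hz.2
          linarith
        · have := (Complex.abs_im_le_norm z).trans hz.2
          linarith
      have h4 : ContinuousAt
          (fun z : ℂ => (x0 + xi (l n) (w n) t z, y0 + z - k * xi (l n) (w n) t z)) z := by
        fun_prop
      exact ContinuousAt.comp
        (f := fun z : ℂ => (x0 + xi (l n) (w n) t z, y0 + z - k * xi (l n) (w n) t z))
        (hP n).continuous.continuousAt h4
    have hfin := S_sub_le c1 c2 hle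
    rw [hrel, sub_zero, ← hD] at hfin
    linarith
  -- conclusion by rigidity
  refine rigid hP' hc0 ?_ ?_
  · intro x y
    have h := key x y 0
    unfold A
    rw [← h]
    apply S_congr
    intro z _
    simp
  · intro x y
    have hd : HasDerivAt (fun k : ℂ => S (fun z => P' (x + c * z⁻¹, y + z - k * (c * z⁻¹))))
        (S (fun z => -(c * z⁻¹) * Dy P' (x + c * z⁻¹, y + z - 0 * (c * z⁻¹)))) 0 := by
      refine S_hasDeriv (G := fun k z => P' (x + c * z⁻¹, y + z - k * (c * z⁻¹)))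
        (G' := fun k z => -(c * z⁻¹) * Dy P' (x + c * z⁻¹, y + z - k * (c * z⁻¹))) ?_ ?_ ?_ 0
      · intro k z _
        have e1 : HasDerivAt (fun _ : ℂ => x + c * z⁻¹) 0 k := hasDerivAt_const _ _
        have e2 : HasDerivAt (fun k : ℂ => y + z - k * (c * z⁻¹)) (-(c * z⁻¹)) k := by
          simpa using ((hasDerivAt_id k).mul_const (c * z⁻¹)).const_sub (y + z)
        refine (chain hP' e1 e2).congr_deriv ?_
        ring
      · apply hP'.continuous.comp_continuousOn
        apply ContinuousOn.prodMk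
        · exact continuousOn_const.add (continuousOn_const.mul snd_inv)
        · exact (by fun_prop : ContinuousOn (fun p : ℂ × ℂ => y + p.2) {p | p.2 ≠ 0}).sub
            (continuous_fst.continuousOn.mul (continuousOn_const.mul snd_inv))
      · apply ContinuousOn.mul
        · exact (continuousOn_const.mul snd_inv).neg
        · apply (Dy_diff hP').continuous.comp_continuousOn
          apply ContinuousOn.prodMk
          · exact continuousOn_const.add (continuousOn_const.mul snd_inv)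
          · exact (by fun_prop : ContinuousOn (fun p : ℂ × ℂ => y + p.2) {p | p.2 ≠ 0}).sub
              (continuous_fst.continuousOn.mul (continuousOn_const.mul snd_inv))
    have h0 : (fun k : ℂ => S (fun z => P' (x + c * z⁻¹, y + z - k * (c * z⁻¹)))) =
        fun _ => 0 := by
      ext k
      exact key x y k
    rw [h0] at hd
    have h3 := hd.unique (hasDerivAt_const _ _)
    have h4 : S (fun z => -(c * z⁻¹) * Dy P' (x + c * z⁻¹, y + z - 0 * (c * z⁻¹))) =
        -c * A (Dy P') (-1) c x y := by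
      unfold A
      rw [← S_smul]
      apply S_congr
      intro z _
      rw [zpow_neg_one, zero_mul, sub_zero]
      ring
    rw [h4] at h3
    exact (mul_eq_zero.1 h3).resolve_left (neg_ne_zero.2 hc0)

end Pool.Agent.Helper41.FB
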