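import Mathlib

set_option autoImplicit false

open Complex Set Filter Topology ComplexConjugate

namespace Pool.Agent.Helper41.FB

/-- squared Euclidean length -/
noncomputable def Qf (u : ℂ × ℂ) : ℝ := Complex.normSq u.1 + Complex.normSq u.2

/-- real inner product -/
noncomputable def Bf (u v : ℂ × ℂ) : ℝ := (u.1 * conj v.1 + u.2 * conj v.2).re

/-- determinant of two vectors -/
def dt (u v : ℂ × ℂ) : ℂ := u.1 * v.2 - u.2 * v.1

/-- integer combinations -/
def cb (r s : ℤ) (g h : ℂ × ℂ) : ℂ × ℂ := (r * g.1 + s * h.1, r * g.2 + s * h.2)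

lemma red (a b c : ℝ) (hc : 0 < c) (hD : 0 < a * c - b ^ 2) :
    ∃ p q r s : ℤ, p * s - q * r = 1 ∧
      (r : ℝ) ^ 2 * a + 2 * r * s * b + s ^ 2 * c ≤ (p : ℝ) ^ 2 * a + 2 * p * q * b + q ^ 2 * c ∧
      2 * |(p : ℝ) * r * a + (p * s + q * r) * b + q * s * c| ≤
        (r : ℝ) ^ 2 * a + 2 * r * s * b + s ^ 2 * c := by
  set D := Real.sqrt (a * c - b ^ 2) with hDdef
  have hD0 : 0 < D := Real.sqrt_pos.2 hD
  have hDsq : D ^ 2 = a * c - b ^ 2 := Real.sq_sqrt hD.le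
  let t : UpperHalfPlane := ⟨⟨b / c, D / c⟩, div_pos hD0 hc⟩
  obtain ⟨g, hg1, hg2⟩ := ModularGroup.exists_smul_mem_fd t
  have hco := UpperHalfPlane.coe_specialLinearGroup_apply g t
  set p : ℤ := g 0 0 with hp
  set q : ℤ := g 0 1 with hq
  set r : ℤ := g 1 0 with hr
  set s : ℤ := g 1 1 with hs
  have hdet : p * s - q * r = 1 := by
    have := g.det_coe
    rw [Matrix.det_fin_two] at this
    exact this
  set N : ℂ := (p : ℂ) * t + q with hN
  set M : ℂ := (r : ℂ) * t + s with hM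
  have hco' : ((g • t : UpperHalfPlane) : ℂ) = N / M := by
    rw [hco]
    simp [hN, hM]
  have tre : (t : ℂ).re = b / c := rfl
  have tim : (t : ℂ).im = D / c := rfl
  have n1 : N.re = p * (b / c) + q := by
    rw [hN, add_re, mul_re, intCast_re, intCast_im, intCast_re, tre]; ring
  have n2 : N.im = p * (D / c) := by
    rw [hN, add_im, mul_im, intCast_re, intCast_im, intCast_im, tim]; ring
  have m1 : M.re = r * (b / c) + s := by
    rw [hM, add_re, mul_re, intCast_re, intCast_im, intCast_re, tre]; ring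
  have m2 : M.im = r * (D / c) := by
    rw [hM, add_im, mul_im, intCast_re, intCast_im, intCast_im, tim]; ring
  have h1 : 1 ≤ normSq N / normSq M := by
    rw [← normSq_div, ← hco']
    exact hg1
  have hM0 : 0 < normSq M := by
    rcases (normSq_nonneg M).lt_or_eq with h | h
    · exact h
    · rw [← h, div_zero] at h1
      linarith
  have h2 : normSq M ≤ normSq N := by rwa [le_div_iff₀ hM0, one_mul] at h1
  have h3 : |(N.re * M.re + N.im * M.im) / normSq M| ≤ 1 / 2 := by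
    have h4 : (g • t : UpperHalfPlane).re = (N.re * M.re + N.im * M.im) / normSq M := by
      rw [← UpperHalfPlane.coe_re, hco', div_re]
      ring
    rw [← h4]
    exact hg2
  have h5 : 2 * |N.re * M.re + N.im * M.im| ≤ normSq M := by
    rw [abs_div, abs_of_pos hM0, div_le_iff₀ hM0] at h3
    linarith
  have e1 : c * normSq M = (r : ℝ) ^ 2 * a + 2 * r * s * b + s ^ 2 * c := by
    rw [normSq_apply, m1, m2]
    field_simp
    linear_combination (r : ℝ) ^ 2 * hDsq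
  have e2 : c * normSq N = (p : ℝ) ^ 2 * a + 2 * p * q * b + q ^ 2 * c := by
    rw [normSq_apply, n1, n2]
    field_simp
    linear_combination (p : ℝ) ^ 2 * hDsq
  have e3 : c * (N.re * M.re + N.im * M.im) =
      (p : ℝ) * r * a + (p * s + q * r) * b + q * s * c := by
    rw [m1, m2, n1, n2]
    field_simp
    linear_combination (p : ℝ) * r * hDsq
  refine ⟨p, q, r, s, hdet, ?_, ?_⟩
  · rw [← e1, ← e2]
    exact mul_le_mul_of_nonneg_left h2 hc.le
  · rw [← e1, ← e3, abs_mul, abs_of_pos hc]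
    nlinarith

lemma Qf_nonneg (u : ℂ × ℂ) : 0 ≤ Qf u := add_nonneg (normSq_nonneg _) (normSq_nonneg _)

lemma lagr (u v : ℂ × ℂ) :
    Qf u * Qf v = normSq (u.1 * conj v.1 + u.2 * conj v.2) + normSq (dt u v) := by
  simp only [Qf, dt, normSq_apply, add_re, add_im, mul_re, mul_im, sub_re, sub_im, conj_re,
    conj_im]
  ring

lemma lagr_ge (u v : ℂ × ℂ) : normSq (dt u v) ≤ Qf u * Qf v - Bf u v ^ 2 := by
  rw [lagr]
  have : Bf u v ^ 2 ≤ normSq (u.1 * conj v.1 + u.2 * conj v.2) := by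
    rw [normSq_apply]
    unfold Bf
    nlinarith [mul_self_nonneg (u.1 * conj v.1 + u.2 * conj v.2).im]
  linarith

lemma Qf_cb (r s : ℤ) (g h : ℂ × ℂ) :
    Qf (cb r s g h) = (r : ℝ) ^ 2 * Qf g + 2 * r * s * Bf g h + s ^ 2 * Qf h := by
  simp only [Qf, Bf, cb, normSq_apply, add_re, add_im, mul_re, mul_im, conj_re,
    conj_im, intCast_re, intCast_im]
  ring

lemma Bf_cb (p q r s : ℤ) (g h : ℂ × ℂ) :
    Bf (cb p q g h) (cb r s g h) =
      (p : ℝ) * r * Qf g + (p * s + q * r) * Bf g h + q * s * Qf h := by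
  simp only [Qf, Bf, cb, normSq_apply, add_re, add_im, mul_re, mul_im, conj_re,
    conj_im, intCast_re, intCast_im]
  ring

lemma dt_cb (p q r s : ℤ) (g h : ℂ × ℂ) :
    dt (cb r s g h) (cb p q g h) = -((p * s - q * r : ℤ) : ℂ) * dt g h := by
  simp only [dt, cb]
  push_cast
  ring

/-- Lagrange reduced basis of a lattice spanned by two complex independent vectors. -/
lemma exists_reduced {g h : ℂ × ℂ} (h0 : dt g h ≠ 0) :
    ∃ p q r s : ℤ, ‖dt (cb r s g h) (cb p q g h)‖ = ‖dt g h‖ ∧ 0 < Qf (cb r s g h) ∧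
      Qf (cb r s g h) ≤ Qf (cb p q g h) ∧
      2 * |Bf (cb p q g h) (cb r s g h)| ≤ Qf (cb r s g h) := by
  have hpos : 0 < normSq (dt g h) := normSq_pos.2 h0
  have h1 := lagr_ge g h
  have hh : 0 < Qf h := by
    rcases (Qf_nonneg h).lt_or_eq with h2 | h2
    · exact h2
    · rw [← h2, mul_zero] at h1
      nlinarith [sq_nonneg (Bf g h)]
  obtain ⟨p, q, r, s, e, e1, e2⟩ := red (Qf g) (Bf g h) (Qf h) hh (by linarith)
  have e3 : ‖dt (cb r s g h) (cb p q g h)‖ = ‖dt g h‖ := by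
    rw [dt_cb, e]
    simp
  refine ⟨p, q, r, s, e3, ?_, ?_, ?_⟩
  · rcases (Qf_nonneg (cb r s g h)).lt_or_eq with h2 | h2
    · exact h2
    · exfalso
      have h3 := lagr (cb r s g h) (cb p q g h)
      rw [← h2, zero_mul, normSq_eq_norm_sq (dt _ _), e3] at h3
      have h4 := normSq_nonneg ((cb r s g h).1 * conj (cb p q g h).1 +
        (cb r s g h).2 * conj (cb p q g h).2)
      have h5 : 0 < ‖dt g h‖ := norm_pos_iff.2 h0
      nlinarith [pow_pos h5 2]
  · rw [Qf_cb, Qf_cb]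
    exact e1
  · rw [Bf_cb, Qf_cb]
    exact e2

/-- A unitary frame. -/
noncomputable def Mf (e : ℂ × ℂ) (x y : ℂ) : ℂ × ℂ :=
  (y * e.1 - x * conj e.2, y * e.2 + x * conj e.1)

lemma Mf_add (e : ℂ × ℂ) (x y x' y' : ℂ) : Mf e (x + x') (y + y') = Mf e x y + Mf e x' y' := by
  ext <;> simp [Mf] <;> ring

lemma Mf_neg (e : ℂ × ℂ) (x y : ℂ) : Mf e (-x) (-y) = -Mf e x y := by
  ext <;> simp [Mf] <;> ring

lemma Qf_one {e : ℂ × ℂ} (he : Qf e = 1) : conj e.1 * e.1 + conj e.2 * e.2 = 1 := by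
  rw [← normSq_eq_conj_mul_self, ← normSq_eq_conj_mul_self, ← ofReal_add]
  unfold Qf at he
  rw [he, ofReal_one]

lemma Mf_surj {e : ℂ × ℂ} (he : Qf e = 1) (v : ℂ × ℂ) :
    Mf e (dt e v) (conj e.1 * v.1 + conj e.2 * v.2) = v := by
  have h := Qf_one he
  unfold Mf dt
  ext
  · simp only
    linear_combination v.1 * h
  · simp only
    linear_combination v.2 * h

/-- The linear map has integral multiples of `2 π i` as coordinates of the value at `u`. -/
def IsPer (L : (ℂ × ℂ) →L[ℂ] (ℂ × ℂ)) (u : ℂ × ℂ) : Prop :=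
  ∃ m n : ℤ, L u = (m * (2 * Real.pi * I), n * (2 * Real.pi * I))

lemma IsPer.neg {L : (ℂ × ℂ) →L[ℂ] (ℂ × ℂ)} {u : ℂ × ℂ} (h : IsPer L u) : IsPer L (-u) := by
  obtain ⟨m, n, h⟩ := h
  refine ⟨-m, -n, ?_⟩
  rw [map_neg, h]
  ext <;> simp

/-- The universal covering of `C* x C*`. -/
noncomputable def ex (p : ℂ × ℂ) : ℂ × ℂ := (Complex.exp p.1, Complex.exp p.2)

lemma IsPer.ex_eq {L : (ℂ × ℂ) →L[ℂ] (ℂ × ℂ)} {u : ℂ × ℂ} (h : IsPer L u) (p b : ℂ × ℂ) :
    ex (L (p + u) + b) = ex (L p + b) := by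
  obtain ⟨m, n, h⟩ := h
  rw [map_add, h]
  unfold ex
  ext
  · simp only [Prod.fst_add]
    rw [show (L p).1 + m * (2 * Real.pi * I) + b.1 = (L p).1 + b.1 + m * (2 * Real.pi * I) by ring,
      Complex.exp_add, Complex.exp_int_mul_two_pi_mul_I, mul_one]
  · simp only [Prod.snd_add]
    rw [show (L p).2 + n * (2 * Real.pi * I) + b.2 = (L p).2 + b.2 + n * (2 * Real.pi * I) by ring,
      Complex.exp_add, Complex.exp_int_mul_two_pi_mul_I, mul_one]

/-- The determinant of a linear map of `C^2`. -/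
noncomputable def jac (T : (ℂ × ℂ) →L[ℂ] (ℂ × ℂ)) : ℂ :=
  (T (1, 0)).1 * (T (0, 1)).2 - (T (0, 1)).1 * (T (1, 0)).2

lemma clm_apply (T : (ℂ × ℂ) →L[ℂ] (ℂ × ℂ)) (x y : ℂ) :
    T (x, y) = x • T (1, 0) + y • T (0, 1) := by
  rw [← map_smul, ← map_smul, ← map_add]
  congr 1
  ext <;> simp

/-- A good frame for the period lattice. -/
theorem exists_frame (L : (ℂ × ℂ) →L[ℂ] (ℂ × ℂ)) (hL : jac L ≠ 0) :
    ∃ (e : ℂ × ℂ) (l : ℝ) (w V : ℂ), Qf e = 1 ∧ 0 < l ∧
      ‖w‖ * l = 4 * Real.pi ^ 2 / ‖jac L‖ ∧ 0 ≤ V.im ∧ |V.re| ≤ l / 2 ∧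
      l ^ 2 ≤ ‖V‖ ^ 2 + ‖w‖ ^ 2 ∧ IsPer L (Mf e 0 l) ∧ IsPer L (Mf e w V) := by
  set a := (L (1, 0)).1 with ha
  set c := (L (1, 0)).2 with hc
  set b := (L (0, 1)).1 with hb
  set d := (L (0, 1)).2 with hd
  set J := jac L with hJ
  have hJ' : J = a * d - b * c := rfl
  set k : ℂ := 2 * Real.pi * I / J with hk
  have hkJ : k * J = 2 * Real.pi * I := by rw [hk]; field_simp
  set g : ℂ × ℂ := (k * d, -(k * c)) with hg
  set h : ℂ × ℂ := (-(k * b), k * a) with hh
  have hLcb : ∀ r s : ℤ, L (cb r s g h) = (r * (2 * Real.pi * I), s * (2 * Real.pi * I)) := by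
    intro r s
    rw [cb, clm_apply L, ← hkJ, hJ']
    ext
    · simp only [Prod.fst_add, Prod.smul_fst, smul_eq_mul, hg, hh, ← ha, ← hb]
      ring
    · simp only [Prod.snd_add, Prod.smul_snd, smul_eq_mul, hg, hh, ← hc, ← hd]
      ring
  have hdt : dt g h = k * (2 * Real.pi * I) := by
    rw [← hkJ, hJ', dt, hg, hh]
    ring
  have h2pi : (2 * Real.pi * I : ℂ) ≠ 0 := Complex.two_pi_I_ne_zero
  have hk0 : k ≠ 0 := div_ne_zero h2pi hL
  have hdt0 : dt g h ≠ 0 := by rw [hdt]; exact mul_ne_zero hk0 h2pi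
  have hdtn : ‖dt g h‖ = 4 * Real.pi ^ 2 / ‖J‖ := by
    rw [hdt, hk, norm_mul, norm_div]
    simp only [norm_mul, Complex.norm_ofNat, Complex.norm_real, norm_I, Real.norm_eq_abs,
      abs_of_pos Real.pi_pos]
    ring
  obtain ⟨p, q, r, s, e1, e2, e3, e4⟩ := exists_reduced hdt0
  set u := cb r s g h with hu
  set v := cb p q g h with hv
  have pu : IsPer L u := ⟨r, s, hLcb r s⟩
  have pv : IsPer L v := ⟨p, q, hLcb p q⟩
  set l : ℝ := Real.sqrt (Qf u) with hl
  have hl0 : 0 < l := Real.sqrt_pos.2 e2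
  have hlsq : l ^ 2 = Qf u := Real.sq_sqrt e2.le
  set e : ℂ × ℂ := (u.1 / l, u.2 / l) with he
  have hlc : (l : ℂ) ≠ 0 := by exact_mod_cast hl0.ne'
  have heu1 : e.1 * l = u.1 := by rw [he]; field_simp
  have heu2 : e.2 * l = u.2 := by rw [he]; field_simp
  have hQe : Qf e = 1 := by
    have : Qf u = Qf e * l ^ 2 := by
      unfold Qf
      rw [← heu1, ← heu2, normSq_mul, normSq_mul, normSq_ofReal]
      ring
    rw [← hlsq] at this
    have h5 : l ^ 2 * (Qf e - 1) = 0 := by linear_combination -this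
    have h6 := (mul_eq_zero.1 h5).resolve_left (by positivity)
    linarith
  set w : ℂ := dt e v with hw
  set V : ℂ := conj e.1 * v.1 + conj e.2 * v.2 with hV
  have hwl : ‖w‖ * l = 4 * Real.pi ^ 2 / ‖J‖ := by
    rw [← hdtn, ← e1]
    have : w * l = dt u v := by
      rw [hw, dt, dt, ← heu1, ← heu2]
      ring
    rw [← this, norm_mul, Complex.norm_real, Real.norm_eq_abs, abs_of_pos hl0]
  have hmu : Mf e 0 l = u := by
    unfold Mf
    ext
    · simp only [zero_mul, sub_zero]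
      rw [mul_comm, heu1]
    · simp only [zero_mul, add_zero]
      rw [mul_comm, heu2]
  have hmv : Mf e w V = v := Mf_surj hQe v
  have hnorm : l ^ 2 ≤ ‖V‖ ^ 2 + ‖w‖ ^ 2 := by
    have h7 := lagr e v
    rw [hQe, one_mul] at h7
    have h8 : normSq (e.1 * conj v.1 + e.2 * conj v.2) = ‖V‖ ^ 2 := by
      rw [normSq_eq_norm_sq, ← Complex.norm_conj V, hV]
      simp
    rw [h8, normSq_eq_norm_sq] at h7
    rw [← h7, hlsq]
    exact e3
  have hre : |V.re| ≤ l / 2 := by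
    have h9 : V.re * l = Bf v u := by
      unfold Bf
      rw [← heu1, ← heu2, hV]
      simp only [add_re, mul_re, conj_re, conj_im, ofReal_re, ofReal_im, mul_im]
      ring
    rw [← h9, abs_mul, abs_of_pos hl0, ← hlsq] at e4
    nlinarith
  rcases le_total 0 V.im with hi | hi
  · refine ⟨e, l, w, V, hQe, hl0, hwl, hi, hre, hnorm, ?_, ?_⟩
    · rw [hmu]; exact pu
    · rw [hmv]; exact pv
  · refine ⟨e, l, -w, -V, hQe, hl0, ?_, ?_, ?_, ?_, ?_, ?_⟩
    · rw [norm_neg]; exact hwl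
    · rw [neg_im]; linarith
    · rw [neg_re, abs_neg]; exact hre
    · rw [norm_neg, norm_neg]; exact hnorm
    · rw [hmu]; exact pu
    · rw [Mf_neg, hmv]; exact pv.neg

end Pool.Agent.Helper41.FB
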