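import Pool.Agent.Helper41.FB.RigE
import Pool.Agent.Helper41.FB.RigF

set_option autoImplicit false

open Complex Set Filter Topology ComplexConjugate

namespace Pool.Agent.Helper41.FB

lemma tlu_comp {X Y Z : Type*} [TopologicalSpace X] [TopologicalSpace Y] [UniformSpace Z]
    {G : ℕ → X → Z} {G' : X → Z} (hG : TendstoLocallyUniformly G G' atTop)
    (hG' : Continuous G') {h : ℕ → Y → X} {h' : Y → X} (hc : Continuous h')
    (hh : ∀ y, Tendsto (fun q : ℕ × Y => h q.1 q.2) (atTop ×ˢ 𝓝 y) (𝓝 (h' y))) :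
    TendstoLocallyUniformly (fun n y => G n (h n y)) (fun y => G' (h' y)) atTop := by
  rw [tendstoLocallyUniformly_iff_forall_tendsto] at hG ⊢
  intro y
  have h1 : Tendsto (fun q : ℕ × Y => (G' (h q.1 q.2), G q.1 (h q.1 q.2)))
      (atTop ×ˢ 𝓝 y) (uniformity Z) :=
    (hG (h' y)).comp (tendsto_fst.prodMk (hh y))
  have h2 : Tendsto (fun q : ℕ × Y => (G' (h' q.2), G' (h q.1 q.2)))
      (atTop ×ˢ 𝓝 y) (uniformity Z) := by
    have a1 : Tendsto (fun q : ℕ × Y => G' (h' q.2)) (atTop ×ˢ 𝓝 y) (𝓝 (G' (h' y))) :=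
      ((hG'.comp hc).tendsto y).comp tendsto_snd
    have a2 : Tendsto (fun q : ℕ × Y => G' (h q.1 q.2)) (atTop ×ˢ 𝓝 y) (𝓝 (G' (h' y))) :=
      (hG'.tendsto _).comp (hh y)
    exact (a1.prodMk_nhds a2).mono_right (nhds_le_uniformity _)
  exact h2.uniformity_trans h1

lemma tlu_sub {X Z : Type*} [TopologicalSpace X] [UniformSpace Z]
    {G : ℕ → X → Z} {G' : X → Z} (hG : TendstoLocallyUniformly G G' atTop) {f : ℕ → ℕ}
    (hf : Tendsto f atTop atTop) : TendstoLocallyUniformly (fun n => G (f n)) G' atTop := by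
  intro u hu x
  obtain ⟨t, ht, h⟩ := hG u hu x
  exact ⟨t, ht, hf.eventually h⟩

lemma Mf_cont (x0 : ℂ) : Continuous fun q : ((ℂ × ℂ) × ℂ) × (ℂ × ℂ) =>
    Mf q.1.1 (x0 + q.1.2 * q.2.1) q.2.2 := by
  unfold Mf
  fun_prop

lemma Mf_diff (e : ℂ × ℂ) (x0 c : ℂ) :
    Differentiable ℂ fun q : ℂ × ℂ => Mf e (x0 + c * q.1) q.2 := by
  unfold Mf
  fun_prop

lemma norm_le_one {e : ℂ × ℂ} (he : Qf e = 1) : ‖e.1‖ ≤ 1 ∧ ‖e.2‖ ≤ 1 := by
  unfold Qf at he
  rw [normSq_eq_norm_sq, normSq_eq_norm_sq] at he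
  constructor
  · nlinarith [sq_nonneg ‖e.2‖, norm_nonneg e.1]
  · nlinarith [sq_nonneg ‖e.1‖, norm_nonneg e.2]

/-- The core statement: a locally uniform limit of entire maps with sparse, unimodular-like period
lattices is constant in some direction. -/
theorem core {F : ℂ × ℂ → ℂ × ℂ} (hF : Differentiable ℂ F) {G : ℕ → ℂ × ℂ → ℂ × ℂ}
    (hG : ∀ n, Differentiable ℂ (G n)) {L : ℕ → (ℂ × ℂ) →L[ℂ] (ℂ × ℂ)} {m : ℝ} (hm : 0 < m)
    (hL : ∀ n, m ≤ ‖jac (L n)‖)
    (hper : ∀ n u p, IsPer (L n) u → G n (p + u) = G n p) {r : ℕ → ℝ}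
    (hr : Tendsto r atTop atTop) (hlong : ∀ n u, IsPer (L n) u → u ≠ 0 → r n ≤ ‖u‖)
    (hlim : TendstoLocallyUniformly G F atTop) :
    ∃ e, Qf e = 1 ∧ (∀ x y, F (Mf e x y) = F (Mf e x 0)) ∧
      ((∃ M, ∀ n, ‖jac (L n)‖ ≤ M) → ∀ p, F p = F 0) := by
  have hpi := Real.pi_pos
  have hJ0 : ∀ n, 0 < ‖jac (L n)‖ := fun n => hm.trans_le (hL n)
  have hJ : ∀ n, jac (L n) ≠ 0 := fun n => norm_pos_iff.1 (hJ0 n)
  choose e l w V he hl0 hwl hVi hVr hlV pu pv using fun n => exists_frame (L n) (hJ n)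
  set c : ℕ → ℂ := fun n => -(w n * l n / (2 * Real.pi * I)) with hc
  have h2pi : (2 * Real.pi * I : ℂ) ≠ 0 := Complex.two_pi_I_ne_zero
  have h2pin : ‖(2 * Real.pi * I : ℂ)‖ = 2 * Real.pi := by
    simp only [norm_mul, Complex.norm_ofNat, Complex.norm_real, norm_I, Real.norm_eq_abs,
      abs_of_pos Real.pi_pos, mul_one]
  have hcn : ∀ n, ‖c n‖ = 2 * Real.pi / ‖jac (L n)‖ := by
    intro n
    rw [hc]
    simp only
    rw [norm_neg, norm_div, norm_mul, Complex.norm_real, Real.norm_eq_abs, abs_of_pos (hl0 n),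
      hwl, h2pin]
    have := (hJ0 n).ne'
    field_simp
    norm_num
  have hlr : ∀ n, r n ≤ l n := by
    intro n
    have h0 : Mf (e n) 0 (l n) ≠ 0 := by
      intro h
      have a1 : (l n : ℂ) * (e n).1 - 0 * conj (e n).2 = 0 := congrArg Prod.fst h
      have a2 : (l n : ℂ) * (e n).2 + 0 * conj (e n).1 = 0 := congrArg Prod.snd h
      have hln : (l n : ℂ) ≠ 0 := by exact_mod_cast (hl0 n).ne'
      rw [zero_mul, sub_zero] at a1
      rw [zero_mul, add_zero] at a2
      have b1 := (mul_eq_zero.1 a1).resolve_left hln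
      have b2 := (mul_eq_zero.1 a2).resolve_left hln
      have b3 := he n
      unfold Qf at b3
      rw [b1, b2, normSq_zero] at b3
      norm_num at b3
    refine (hlong n _ (pu n) h0).trans ?_
    obtain ⟨n1, n2⟩ := norm_le_one (he n)
    rw [Prod.norm_def]
    apply max_le
    · show ‖(l n : ℂ) * (e n).1 - 0 * conj (e n).2‖ ≤ l n
      rw [zero_mul, sub_zero, norm_mul, Complex.norm_real, Real.norm_eq_abs, abs_of_pos (hl0 n)]
      nlinarith [hl0 n]
    · show ‖(l n : ℂ) * (e n).2 + 0 * conj (e n).1‖ ≤ l n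
      rw [zero_mul, add_zero, norm_mul, Complex.norm_real, Real.norm_eq_abs, abs_of_pos (hl0 n)]
      nlinarith [hl0 n]
  have hlt : Tendsto l atTop atTop := tendsto_atTop_mono hlr hr
  -- compactness
  have hmem : ∀ n, ((e n, c n) : (ℂ × ℂ) × ℂ) ∈
      Metric.closedBall (0 : (ℂ × ℂ) × ℂ) (max 1 (2 * Real.pi / m)) := by
    intro n
    rw [mem_closedBall_zero_iff, Prod.norm_def, Prod.norm_def]
    obtain ⟨n1, n2⟩ := norm_le_one (he n)
    apply max_le
    · exact (max_le n1 n2).trans (le_max_left _ _)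
    · show ‖c n‖ ≤ _
      rw [hcn]
      refine le_trans ?_ (le_max_right _ _)
      apply div_le_div_of_nonneg_left (by positivity) hm (hL n)
  obtain ⟨⟨e', c'⟩, -, f, hf, hlimf⟩ :=
    (isCompact_closedBall (0 : (ℂ × ℂ) × ℂ) (max 1 (2 * Real.pi / m))).tendsto_subseq hmem
  have hft : Tendsto f atTop atTop := hf.tendsto_atTop
  have hlim1 : Tendsto (fun n => e (f n)) atTop (𝓝 e') :=
    (continuous_fst.tendsto _).comp hlimf
  have hlim2 : Tendsto (fun n => c (f n)) atTop (𝓝 c') :=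
    (continuous_snd.tendsto _).comp hlimf
  have he' : Qf e' = 1 := by
    have h1 : Continuous Qf := by
      unfold Qf
      exact (continuous_normSq.comp continuous_fst).add (continuous_normSq.comp continuous_snd)
    have h2 : Tendsto (fun n => Qf (e (f n))) atTop (𝓝 (Qf e')) := (h1.tendsto _).comp hlim1
    have h3 : (fun n => Qf (e (f n))) = fun _ => 1 := by
      ext n
      exact he (f n)
    rw [h3] at h2
    exact tendsto_nhds_unique h2 tendsto_const_nhds
  -- the scaled short period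
  have hV : ∀ᶠ n in atTop, 3 / 4 * l n ≤ (V n).im := by
    have h1 : ∀ᶠ n in atTop, max 1 (400 * Real.pi ^ 2 / m) ≤ l n := hlt.eventually_ge_atTop _
    filter_upwards [h1] with n hn
    have hn1 : 1 ≤ l n := (le_max_left _ _).trans hn
    have hn2 : 400 * Real.pi ^ 2 / m ≤ l n := (le_max_right _ _).trans hn
    have hw : ‖w n‖ ≤ l n / 100 := by
      have h3 : ‖w n‖ * l n ≤ 4 * Real.pi ^ 2 / m := by
        rw [hwl]
        apply div_le_div_of_nonneg_left (by positivity) hm (hL n)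
      have h4 : 4 * Real.pi ^ 2 / m = 400 * Real.pi ^ 2 / m / 100 := by ring
      have h5 : ‖w n‖ * l n ≤ l n / 100 := by rw [h4] at h3; linarith
      have h6 : ‖w n‖ ≤ ‖w n‖ * l n := le_mul_of_one_le_right (norm_nonneg _) hn1
      linarith
    have h7 := hlV n
    have h8 : ‖V n‖ ^ 2 = (V n).re ^ 2 + (V n).im ^ 2 := by
      rw [← normSq_eq_norm_sq, normSq_apply]; ring
    have h9 : (V n).re ^ 2 ≤ (l n / 2) ^ 2 := sq_le_sq' (by
      have := (abs_le.1 (hVr n)).1; linarith) (abs_le.1 (hVr n)).2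
    have h10 : ‖w n‖ ^ 2 ≤ (l n / 100) ^ 2 := pow_le_pow_left₀ (norm_nonneg _) hw 2
    have h11 : (3 / 4 * l n) ^ 2 ≤ (V n).im ^ 2 := by nlinarith
    exact (abs_le_of_sq_le_sq' h11 (hVi n)).2
  have main : ∀ x0 x y : ℂ, F (Mf e' (x0 + c' * x) y) = F (Mf e' x0 0) := by
    intro x0 x y
    have hlz : ∀ n, (l n : ℂ) ≠ 0 := fun n => by exact_mod_cast (hl0 n).ne'
    have hstep : ∀ (pr : ℂ × ℂ →L[ℂ] ℂ), pr (F (Mf e' (x0 + c' * x) y)) = pr (F (Mf e' x0 0)) := by
      intro pr
      have key := lim_const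
        (P := fun n q => pr (G (f n) (Mf (e (f n)) (x0 + c (f n) * q.1) q.2)))
        (P' := fun q => pr (F (Mf e' (x0 + c' * q.1) q.2)))
        (l := fun n => l (f n)) (w := fun n => -(2 * Real.pi * I / l (f n)))
        (V := fun n => V (f n)) (c := 1) ?_ ?_ ?_ ?_ ?_ ?_ ?_ ?_ ?_ ?_ (x, y)
      · simpa using key
      · intro n
        exact pr.differentiable.comp ((hG (f n)).comp (Mf_diff _ _ _))
      · exact pr.differentiable.comp (hF.comp (Mf_diff _ _ _))
      · intro n x y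
        simp only
        have := hper (f n) _ (Mf (e (f n)) (x0 + c (f n) * x) y) (pu (f n))
        rw [← Mf_add, add_zero] at this
        rw [this]
      · intro n x y
        simp only
        have := hper (f n) _ (Mf (e (f n)) (x0 + c (f n) * x) y) (pv (f n))
        rw [← Mf_add] at this
        have e0 : c (f n) * -(2 * Real.pi * I / l (f n)) = w (f n) := by
          rw [hc]
          simp only
          have := hlz (f n)
          field_simp
        rw [mul_add, e0, ← add_assoc, this]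
      · exact hlt.comp hft
      · have h1 : Tendsto (fun n => (l (f n))⁻¹) atTop (𝓝 0) :=
          tendsto_inv_atTop_zero.comp (hlt.comp hft)
        have h2 : Tendsto (fun n => -(2 * Real.pi * I * ((l (f n))⁻¹ : ℝ))) atTop (𝓝 (-(2 * Real.pi * I * (0 : ℝ)))) :=
          (((continuous_ofReal.tendsto _).comp h1).const_mul _).neg
        rw [ofReal_zero, mul_zero, neg_zero] at h2
        refine h2.congr fun n => ?_
        rw [ofReal_inv]
        rfl
      · exact hft.eventually hV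
      · have h1 : (fun n => -(-(2 * Real.pi * I / l (f n)) * (l (f n) : ℂ) / (2 * Real.pi * I))) =
            fun _ => (1 : ℂ) := by
          ext n
          have := hlz (f n)
          field_simp
        rw [h1]
        exact tendsto_const_nhds
      · exact one_ne_zero
      · apply tlu_comp (G := fun n q => pr (G (f n) q)) (G' := fun q => pr (F q))
          (h := fun n (q : ℂ × ℂ) => Mf (e (f n)) (x0 + c (f n) * q.1) q.2)
          (h' := fun q => Mf e' (x0 + c' * q.1) q.2)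
        · have h2 := tlu_sub hlim hft
          exact pr.uniformContinuous.comp_tendstoLocallyUniformly h2
        · exact pr.continuous.comp hF.continuous
        · exact (Mf_diff _ _ _).continuous
        · intro q
          have h3 : Tendsto (fun z : ℕ × (ℂ × ℂ) => (((e (f z.1), c (f z.1)) : (ℂ × ℂ) × ℂ), z.2))
              (atTop ×ˢ 𝓝 q) (𝓝 ((e', c'), q)) :=
            (hlimf.comp tendsto_fst).prodMk_nhds tendsto_snd
          exact ((Mf_cont x0).tendsto _).comp h3
    have s1 := hstep (ContinuousLinearMap.fst ℂ ℂ ℂ)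
    have s2 := hstep (ContinuousLinearMap.snd ℂ ℂ ℂ)
    exact Prod.ext s1 s2
  refine ⟨e', he', ?_, ?_⟩
  · intro x y
    have := main x 0 y
    rwa [mul_zero, add_zero] at this
  · rintro ⟨M, hM⟩ p
    have hM0 : 0 < M := (hJ0 0).trans_le (hM 0)
    have hc0 : c' ≠ 0 := by
      have h1 : ∀ n, 2 * Real.pi / M ≤ ‖c (f n)‖ := by
        intro n
        rw [hcn]
        exact div_le_div_of_nonneg_left (by positivity) (hJ0 _) (hM _)
      have h2 : 2 * Real.pi / M ≤ ‖c'‖ := ge_of_tendsto' hlim2.norm h1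
      have h3 : 0 < 2 * Real.pi / M := by positivity
      exact norm_pos_iff.1 (h3.trans_le h2)
    have h4 := Mf_surj he' p
    have h5 := main 0 (dt e' p / c') (conj e'.1 * p.1 + conj e'.2 * p.2)
    rw [zero_add, mul_div_cancel₀ _ hc0, h4] at h5
    rw [h5]
    congr 1
    ext <;> simp [Mf]

end Pool.Agent.Helper41.FB
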