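import Pool.Agent.Helper41.FB.RigG

set_option autoImplicit false

open Complex Set Filter Topology ComplexConjugate

namespace Pool.Agent.Helper41.FB

lemma jac_comp (S T : (ℂ × ℂ) →L[ℂ] (ℂ × ℂ)) : jac (S.comp T) = jac S * jac T := by
  unfold jac
  simp only [ContinuousLinearMap.comp_apply]
  have h1 := clm_apply S (T (1, 0)).1 (T (1, 0)).2
  have h2 := clm_apply S (T (0, 1)).1 (T (0, 1)).2
  rw [Prod.mk.eta] at h1 h2
  rw [h1, h2]
  simp only [Prod.fst_add, Prod.snd_add, Prod.smul_fst, Prod.smul_snd, smul_eq_mul]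
  ring

lemma ex_hasFDerivAt (q : ℂ × ℂ) : HasFDerivAt ex
    ((Complex.exp q.1 • ContinuousLinearMap.fst ℂ ℂ ℂ).prod
      (Complex.exp q.2 • ContinuousLinearMap.snd ℂ ℂ ℂ)) q := by
  unfold ex
  exact ((Complex.hasDerivAt_exp q.1).comp_hasFDerivAt q hasFDerivAt_fst).prodMk
    ((Complex.hasDerivAt_exp q.2).comp_hasFDerivAt q hasFDerivAt_snd)

lemma jac_ex (q : ℂ × ℂ) : jac (fderiv ℂ ex q) = Complex.exp q.1 * Complex.exp q.2 := by
  rw [(ex_hasFDerivAt q).fderiv]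
  simp [jac]

lemma jac_zero {T : (ℂ × ℂ) →L[ℂ] (ℂ × ℂ)} {e : ℂ × ℂ} (he : e ≠ 0) (h : T e = 0) :
    jac T = 0 := by
  have h1 := clm_apply T e.1 e.2
  rw [Prod.mk.eta, h] at h1
  have a1 : 0 = e.1 * (T (1, 0)).1 + e.2 * (T (0, 1)).1 := congrArg Prod.fst h1
  have a2 : 0 = e.1 * (T (1, 0)).2 + e.2 * (T (0, 1)).2 := congrArg Prod.snd h1
  have b1 : e.1 * jac T = 0 := by
    unfold jac
    linear_combination -(T (0, 1)).2 * a1 + (T (0, 1)).1 * a2
  have b2 : e.2 * jac T = 0 := by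
    unfold jac
    linear_combination (T (1, 0)).2 * a1 - (T (1, 0)).1 * a2
  by_contra hj
  apply he
  ext
  · exact (mul_eq_zero.1 b1).resolve_right hj
  · exact (mul_eq_zero.1 b2).resolve_right hj

lemma line_deriv {G : ℂ × ℂ → ℂ × ℂ} (hG : Differentiable ℂ G) (p v : ℂ × ℂ) :
    deriv (fun t : ℂ => G (p + t • v)) 0 = fderiv ℂ G p v := by
  have h1 : HasDerivAt (fun t : ℂ => p + t • v) v 0 := by
    simpa using ((hasDerivAt_id (0 : ℂ)).smul_const v).const_add p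
  have h2 : HasFDerivAt G (fderiv ℂ G p) (p + (0 : ℂ) • v) := by
    rw [zero_smul, add_zero]
    exact (hG p).hasFDerivAt
  exact (h2.comp_hasDerivAt (0 : ℂ) h1).deriv

lemma fd_lim {G : ℕ → ℂ × ℂ → ℂ × ℂ} {F : ℂ × ℂ → ℂ × ℂ} (hG : ∀ n, Differentiable ℂ (G n))
    (hF : Differentiable ℂ F) (h : TendstoLocallyUniformly G F atTop) (p v : ℂ × ℂ) :
    Tendsto (fun n => fderiv ℂ (G n) p v) atTop (𝓝 (fderiv ℂ F p v)) := by
  have hc : Continuous fun t : ℂ => p + t • v := by fun_prop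
  have h1 : TendstoLocallyUniformly (fun n (t : ℂ) => G n (p + t • v))
      (fun t => F (p + t • v)) atTop := h.comp _ hc
  have h2 : TendstoLocallyUniformlyOn (fun n (t : ℂ) => G n (p + t • v))
      (fun t => F (p + t • v)) atTop univ := tendstoLocallyUniformlyOn_univ.2 h1
  have h3 := h2.deriv (Eventually.of_forall fun n => by
    apply Differentiable.differentiableOn
    exact (hG n).comp (by fun_prop)) isOpen_univ
  have h4 := h3.tendsto_at (mem_univ (0 : ℂ))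
  simp only [Function.comp_apply] at h4
  rw [line_deriv hF] at h4
  refine h4.congr fun n => ?_
  exact line_deriv (hG n) p v

lemma jac_lim {G : ℕ → ℂ × ℂ → ℂ × ℂ} {F : ℂ × ℂ → ℂ × ℂ} (hG : ∀ n, Differentiable ℂ (G n))
    (hF : Differentiable ℂ F) (h : TendstoLocallyUniformly G F atTop) (p : ℂ × ℂ) :
    Tendsto (fun n => jac (fderiv ℂ (G n) p)) atTop (𝓝 (jac (fderiv ℂ F p))) := by
  have h1 := fd_lim hG hF h p (1, 0)
  have h2 := fd_lim hG hF h p (0, 1)
  unfold jac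
  exact (((continuous_fst.tendsto _).comp h1).mul ((continuous_snd.tendsto _).comp h2)).sub
    (((continuous_fst.tendsto _).comp h2).mul ((continuous_snd.tendsto _).comp h1))

section
variable {F : ℂ × ℂ → ℂ × ℂ} {Ψ : ℕ → ℂ × ℂ → ℂ × ℂ}
  {L : ℕ → (ℂ × ℂ) →L[ℂ] (ℂ × ℂ)} {b : ℕ → ℂ × ℂ} {r : ℕ → ℝ}

lemma isOpen_tor : IsOpen {p : ℂ × ℂ | p.1 ≠ 0 ∧ p.2 ≠ 0} :=
  (isOpen_ne_fun continuous_fst continuous_const).inter
    (isOpen_ne_fun continuous_snd continuous_const)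

lemma G_diff (hΨ : ∀ n, DifferentiableOn ℂ (Ψ n) {p | p.1 ≠ 0 ∧ p.2 ≠ 0}) (n : ℕ) :
    Differentiable ℂ fun p => Ψ n (ex (L n p + b n)) := by
  intro p
  have h1 : DifferentiableAt ℂ (Ψ n) (ex (L n p + b n)) :=
    (hΨ n).differentiableAt (isOpen_tor.mem_nhds ⟨Complex.exp_ne_zero _, Complex.exp_ne_zero _⟩)
  have h2 : DifferentiableAt ℂ (fun p => L n p + b n) p := by fun_prop
  have h3 : DifferentiableAt ℂ (fun p => ex (L n p + b n)) p :=
    (ex_hasFDerivAt _).differentiableAt.comp p h2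
  exact h1.comp p h3

lemma jac_G (hΨ : ∀ n, DifferentiableOn ℂ (Ψ n) {p | p.1 ≠ 0 ∧ p.2 ≠ 0}) (n : ℕ) (p : ℂ × ℂ) :
    jac (fderiv ℂ (fun p => Ψ n (ex (L n p + b n))) p) =
      jac (fderiv ℂ (Ψ n) (ex (L n p + b n))) *
        ((ex (L n p + b n)).1 * (ex (L n p + b n)).2) * jac (L n) := by
  have h1 : DifferentiableAt ℂ (Ψ n) (ex (L n p + b n)) :=
    (hΨ n).differentiableAt (isOpen_tor.mem_nhds ⟨Complex.exp_ne_zero _, Complex.exp_ne_zero _⟩)
  have h2 : HasFDerivAt (fun p => L n p + b n) (L n) p :=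
    (L n).hasFDerivAt.add_const (b n)
  have h3 := ((ex_hasFDerivAt (L n p + b n)).differentiableAt.hasFDerivAt.comp p h2)
  have h4 := h1.hasFDerivAt.comp p h3
  have h5 : fderiv ℂ (fun p => Ψ n (ex (L n p + b n))) p =
      (fderiv ℂ (Ψ n) (ex (L n p + b n))).comp ((fderiv ℂ ex (L n p + b n)).comp (L n)) :=
    h4.fderiv
  rw [h5, jac_comp, jac_comp, jac_ex]
  unfold ex
  ring

/-- Nondegenerate affine pieces: the limit is constant in some direction, and constant if the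
determinants are bounded. -/
theorem part12 (hF : Differentiable ℂ F)
    (hΨ : ∀ n, DifferentiableOn ℂ (Ψ n) {p | p.1 ≠ 0 ∧ p.2 ≠ 0})
    (hr : Tendsto r atTop atTop)
    (hinj : ∀ n, InjOn (fun p => ex (L n p + b n)) (Metric.ball 0 (r n)))
    (hlim : TendstoLocallyUniformly (fun n p => Ψ n (ex (L n p + b n))) F atTop)
    {m : ℝ} (hm : 0 < m) (hL : ∀ᶠ n in atTop, m ≤ ‖jac (L n)‖) :
    (∃ e : ℂ × ℂ, e ≠ 0 ∧ ∀ (p : ℂ × ℂ) (t : ℂ), F (p + t • e) = F p) ∧
      ((∃ M, ∀ᶠ n in atTop, ‖jac (L n)‖ ≤ M) → ∀ p, F p = F 0) := by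
  have key : ∀ f : ℕ → ℕ, Tendsto f atTop atTop → (∀ n, m ≤ ‖jac (L (f n))‖) →
      ∃ e, Qf e = 1 ∧ (∀ x y, F (Mf e x y) = F (Mf e x 0)) ∧
      ((∃ M, ∀ n, ‖jac (L (f n))‖ ≤ M) → ∀ p, F p = F 0) := by
    intro f hf hLf
    refine core hF (G := fun n p => Ψ (f n) (ex (L (f n) p + b (f n))))
      (L := fun n => L (f n)) (r := fun n => r (f n)) (fun n => G_diff hΨ (f n)) hm hLf
      ?_ (hr.comp hf) ?_ (tlu_sub hlim hf)
    · intro n u p hu
      rw [hu.ex_eq]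
    · intro n u hu hu0
      by_contra hlt
      rw [not_le] at hlt
      apply hu0
      have h1 : u ∈ Metric.ball (0 : ℂ × ℂ) (r (f n)) := by
        rw [mem_ball_zero_iff]; exact hlt
      have h2 : (0 : ℂ × ℂ) ∈ Metric.ball (0 : ℂ × ℂ) (r (f n)) := by
        rw [mem_ball_zero_iff, norm_zero]; exact (norm_nonneg _).trans_lt hlt
      apply hinj (f n) h1 h2
      simp only
      have := hu.ex_eq 0 (b (f n))
      rwa [zero_add] at this
  obtain ⟨N, hN⟩ := eventually_atTop.1 hL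
  constructor
  · obtain ⟨e, he, h1, -⟩ := key (fun n => n + N) (tendsto_add_atTop_nat N)
      (fun n => hN _ (Nat.le_add_left _ _))
    refine ⟨e, ?_, ?_⟩
    · rintro rfl
      simp [Qf] at he
    · intro p t
      have h2 := Mf_surj he p
      have h3 : p + t • e = Mf e (dt e p) (conj e.1 * p.1 + conj e.2 * p.2 + t) := by
        have h4 := Mf_add e (dt e p) (conj e.1 * p.1 + conj e.2 * p.2) 0 t
        rw [add_zero, h2] at h4
        rw [h4]
        congr 1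
        ext <;> simp [Mf]
      rw [h3, h1, ← h1 _ (conj e.1 * p.1 + conj e.2 * p.2), h2]
  · rintro ⟨M, hM⟩
    obtain ⟨N', hN'⟩ := eventually_atTop.1 hM
    obtain ⟨e, he, -, h1⟩ := key (fun n => n + (N + N')) (tendsto_add_atTop_nat (N + N'))
      (fun n => hN _ (by omega))
    exact h1 ⟨M, fun n => hN' _ (by omega)⟩

/-- Bounded Jacobians: the limit is degenerate. -/
theorem part3 (hF : Differentiable ℂ F)
    (hΨ : ∀ n, DifferentiableOn ℂ (Ψ n) {p | p.1 ≠ 0 ∧ p.2 ≠ 0})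
    (hr : Tendsto r atTop atTop)
    (hinj : ∀ n, InjOn (fun p => ex (L n p + b n)) (Metric.ball 0 (r n)))
    (hlim : TendstoLocallyUniformly (fun n p => Ψ n (ex (L n p + b n))) F atTop)
    {C : ℝ} (hC : ∀ n z w, z ≠ 0 → w ≠ 0 →
      ‖z * w * jac (fderiv ℂ (Ψ n) (z, w))‖ ≤ C * ‖(Ψ n (z, w)).1 * (Ψ n (z, w)).2‖) (p : ℂ × ℂ) :
    jac (fderiv ℂ F p) = 0 := by
  by_contra hne
  set G : ℕ → ℂ × ℂ → ℂ × ℂ := fun n p => Ψ n (ex (L n p + b n)) with hGdef
  have hG : ∀ n, Differentiable ℂ (G n) := fun n => G_diff hΨ n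
  set de : ℝ := ‖jac (fderiv ℂ F p)‖ with hde
  have hde0 : 0 < de := norm_pos_iff.2 hne
  set C' : ℝ := max C 1 with hC'
  have hC'0 : 0 < C' := lt_of_lt_of_le one_pos (le_max_right _ _)
  set K : ℝ := ‖(F p).1 * (F p).2‖ + 1 with hK
  have hK0 : 0 < K := by positivity
  have e1 : ∀ᶠ n in atTop, de / 2 < ‖jac (fderiv ℂ (G n) p)‖ :=
    (jac_lim hG hF hlim p).norm.eventually (lt_mem_nhds (by rw [← hde]; linarith))
  have e2 : ∀ᶠ n in atTop, ‖(G n p).1 * (G n p).2‖ < K := by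
    have h1 : Tendsto (fun n => G n p) atTop (𝓝 (F p)) :=
      tendsto_iff_forall_eventually_mem.2 fun s hs => by
        obtain ⟨u, hu, hus⟩ := UniformSpace.mem_nhds_iff.1 hs
        obtain ⟨t, ht, h⟩ := hlim u hu p
        exact h.mono fun n hn => hus (hn p (mem_of_mem_nhds ht))
    have h2 : Tendsto (fun n => ‖(G n p).1 * (G n p).2‖) atTop (𝓝 ‖(F p).1 * (F p).2‖) :=
      (((continuous_fst.tendsto _).comp h1).mul ((continuous_snd.tendsto _).comp h1)).norm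
    exact h2.eventually (gt_mem_nhds (by rw [hK]; linarith))
  have e3 : ∀ᶠ n in atTop, de / (2 * C' * K) ≤ ‖jac (L n)‖ := by
    filter_upwards [e1, e2] with n h1 h2
    rw [hGdef] at h1
    simp only at h1
    rw [jac_G hΨ n p, norm_mul] at h1
    have h3 := hC n (ex (L n p + b n)).1 (ex (L n p + b n)).2 (Complex.exp_ne_zero _)
      (Complex.exp_ne_zero _)
    rw [Prod.mk.eta, mul_comm ((ex (L n p + b n)).1 * (ex (L n p + b n)).2)] at h3
    have h4 : ‖jac (fderiv ℂ (Ψ n) (ex (L n p + b n))) *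
        ((ex (L n p + b n)).1 * (ex (L n p + b n)).2)‖ ≤ C' * K := by
      refine h3.trans ?_
      calc C * ‖(Ψ n (ex (L n p + b n))).1 * (Ψ n (ex (L n p + b n))).2‖
          ≤ C' * ‖(Ψ n (ex (L n p + b n))).1 * (Ψ n (ex (L n p + b n))).2‖ :=
            mul_le_mul_of_nonneg_right (le_max_left _ _) (norm_nonneg _)
        _ ≤ C' * K := mul_le_mul_of_nonneg_left h2.le hC'0.le
    rw [div_le_iff₀ (by positivity)]
    nlinarith [norm_nonneg (jac (L n)), mul_le_mul_of_nonneg_right h4 (norm_nonneg (jac (L n)))]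
  obtain ⟨⟨e, he, h⟩, -⟩ := part12 hF hΨ hr hinj hlim (by positivity) e3
  apply hne
  apply jac_zero he
  rw [← line_deriv hF]
  have : (fun t : ℂ => F (p + t • e)) = fun _ => F p := by
    ext1 t
    exact h p t
  rw [this]
  exact deriv_const _ _

end

end Pool.Agent.Helper41.FB
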